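import Pool.Agent.H13.CB.Const

/-! The only input about Bernoulli numbers: 5 H^(4) = 4 p B_{p-5} mod p^2. -/

namespace Pool.Agent.H13.CB

open Finset

section
variable (p : ℕ) [hp : Fact p.Prime]

lemma fermat_q {k : ℕ} (h0 : 0 < k) (h1 : k < p) : ∃ q : ℤ_[p], (k : ℤ_[p]) ^ (p - 1) = 1 + p * q := by
  have hcop : IsCoprime (k : ℤ) p := by
    rw [Nat.isCoprime_iff_coprime]
    exact ((Nat.Prime.coprime_iff_not_dvd hp.out).mpr (fun h => absurd (Nat.le_of_dvd h0 h) (by omega))).symm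
  have h := Int.ModEq.pow_card_sub_one_eq_one hp.out hcop
  obtain ⟨q, hq⟩ := (Int.modEq_iff_dvd.mp h.symm)
  refine ⟨(q : ℤ_[p]), ?_⟩
  have h2 := congrArg (fun n : ℤ => (n : ℤ_[p])) hq
  push_cast at h2
  linear_combination h2

lemma term_congr (hp7 : 7 ≤ p) {k : ℕ} (h0 : 0 < k) (h1 : k < p) :
    (p : ℤ_[p]) ^ 2 ∣ 4 * (k : ℤ_[p]) ^ (p - 5) - 5 * cZ p k ^ 4 + cZ p k ^ (4 * p) := by
  obtain ⟨q, hq⟩ := fermat_q p h0 h1
  have hk := natCast_mul_cZ p h0 h1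
  set x := cZ p k
  have h3 : (k : ℤ_[p]) ^ (p - 5) = x ^ 4 * (1 + p * q) := by
    rw [← hq, show p - 1 = (p - 5) + 4 by omega, pow_add]
    have : (k : ℤ_[p]) ^ 4 * x ^ 4 = 1 := by rw [← mul_pow, hk, one_pow]
    linear_combination (-(k : ℤ_[p]) ^ (p - 5)) * this
  set z := x ^ (p - 1) with hz
  have h4 : (1 + p * q) * z = 1 := by
    rw [← hq, hz, ← mul_pow, hk, one_pow]
  have h5 : x ^ (4 * p) = x ^ 4 * z ^ 4 := by
    rw [hz, ← pow_mul, ← pow_add]; congr 1; omega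
  have h6 : ∃ r : ℤ_[p], z ^ 4 = 1 - 4 * p * q + p ^ 2 * r := by
    have h7 : z = 1 + p * (-q * z) := by linear_combination h4
    have h8 : z = 1 - p * q + p ^ 2 * (q ^ 2 * z) := by linear_combination (1 - p * q) * h4
    obtain ⟨r, hr⟩ : ∃ r : ℤ_[p], z = 1 - p * q + p ^ 2 * r := ⟨_, h8⟩
    refine ⟨4 * r + 6 * (-q + p * r) ^ 2 + 4 * p * (-q + p * r) ^ 3 + p ^ 2 * (-q + p * r) ^ 4, ?_⟩
    rw [hr]; ring
  obtain ⟨r, hr⟩ := h6
  refine ⟨x ^ 4 * r, ?_⟩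
  rw [h5, hr, h3]; ring

lemma isUnit_of_sub_dvd {x y : ℤ_[p]} (h : (p : ℤ_[p]) ∣ x - y) (hy : IsUnit y) : IsUnit x := by
  rw [PadicInt.isUnit_iff] at hy ⊢
  by_contra h2
  have h3 : ‖x‖ < 1 := lt_of_le_of_ne (PadicInt.norm_le_one _) h2
  have h4 := (PadicInt.norm_lt_one_iff_dvd x).mp h3
  have h5 : (p : ℤ_[p]) ∣ y := by
    have := dvd_sub h4 h
    simpa using this
  have h6 := (PadicInt.norm_lt_one_iff_dvd y).mpr h5
  linarith

lemma sum_teich (hp7 : 7 ≤ p) : (p : ℤ_[p]) ^ 2 ∣ ∑ k ∈ Ico 1 p, cZ p k ^ (4 * p) := by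
  have h1 : ∀ k ∈ Ico 1 p, ∃ e, cZ p k ^ (4 * p) = 2 ^ (4 * p) * cZ p ((2 * k) % p) ^ (4 * p) + p ^ 2 * e := by
    intro k hk
    rw [mem_Ico] at hk
    have hj : 0 < (2 * k) % p := by
      rw [Nat.pos_iff_ne_zero]
      intro h
      have h1 : p ∣ 2 * k := Nat.dvd_of_mod_eq_zero h
      rcases (Nat.Prime.dvd_mul hp.out).mp h1 with h2 | h2
      · exact absurd (Nat.le_of_dvd (by omega) h2) (by omega)
      · exact absurd (Nat.le_of_dvd (by omega) h2) (by omega)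
    have h3 := c_scale (fun k h0 h1 => natCast_mul_cZ p h0 h1) (d := 2) (show 0 < k by omega) hk.2 hj (Nat.mod_lt _ hp.out.pos)
      (Nat.mod_add_div (2 * k) p).symm
    have h4 : (p : ℤ_[p]) ∣ cZ p k - 2 * cZ p ((2 * k) % p) := by
      refine ⟨-((2 * k / p : ℕ) * cZ p ((2 * k) % p) * cZ p k), ?_⟩
      push_cast at h3 ⊢
      linear_combination h3
    have h5 := dvd_sub_pow_of_dvd_sub h4 1
    rw [pow_one] at h5
    obtain ⟨e, he⟩ := h5.trans (sub_dvd_pow_sub_pow (cZ p k ^ p) ((2 * cZ p ((2 * k) % p)) ^ p) 4)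
    refine ⟨e, ?_⟩
    rw [← pow_mul, ← pow_mul, mul_comm p 4, mul_pow] at he
    linear_combination he
  choose! e he using h1
  set S := ∑ k ∈ Ico 1 p, cZ p k ^ (4 * p) with hS
  have h2 : S = 2 ^ (4 * p) * S + p ^ 2 * ∑ k ∈ Ico 1 p, e k := by
    conv_lhs => rw [hS, sum_congr rfl he, sum_add_distrib, ← mul_sum, ← mul_sum,
      mulmod_sum p (by omega) (by omega) (fun j => cZ p j ^ (4 * p))]
  have h3 : (p : ℤ_[p]) ^ 2 ∣ (2 ^ (4 * p) - 1) * S := ⟨-∑ k ∈ Ico 1 p, e k, by linear_combination -h2⟩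
  have hu : IsUnit ((2 : ℤ_[p]) ^ (4 * p) - 1) := by
    have h3' := isUnit_small p hp7 (n := 3) (by omega)
    have h5' := isUnit_small p hp7 (n := 5) (by omega)
    have h15 : IsUnit ((15 : ℕ) : ℤ_[p]) := by
      convert h3'.mul h5' using 1
      norm_num
    refine isUnit_of_sub_dvd p ?_ h15
    obtain ⟨q, hq⟩ := fermat_q p (show 0 < 2 by norm_num) (show 2 < p by omega)
    have e1 : (2 : ℤ_[p]) ^ (4 * p) = 16 * ((2 : ℤ_[p]) ^ (p - 1)) ^ 4 := by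
      rw [← pow_mul, show (16 : ℤ_[p]) = 2 ^ 4 by norm_num, ← pow_add]; congr 1; omega
    push_cast at hq
    rw [e1, hq]
    refine ⟨16 * (4 * q + 6 * p * q ^ 2 + 4 * p ^ 2 * q ^ 3 + p ^ 3 * q ^ 4), ?_⟩
    push_cast
    ring
  exact (hu.dvd_mul_left).mp h3

lemma B2 (hp7 : 7 ≤ p) : (p : ℤ_[p]) ^ 2 ∣ 5 * HZ p 4 - 4 * ∑ k ∈ Ico 1 p, (k : ℤ_[p]) ^ (p - 5) := by
  have h1 : (p : ℤ_[p]) ^ 2 ∣ ∑ k ∈ Ico 1 p, (4 * (k : ℤ_[p]) ^ (p - 5) - 5 * cZ p k ^ 4 + cZ p k ^ (4 * p)) := by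
    refine dvd_sum ?_
    intro k hk
    rw [mem_Ico] at hk
    exact term_congr p hp7 (by omega) hk.2
  have h2 := sum_teich p hp7
  rw [sum_add_distrib, sum_sub_distrib, ← mul_sum, ← mul_sum] at h1
  have h3 := dvd_sub h2 h1
  rw [HZ]
  convert h3 using 1
  ring

lemma bern_int {n : ℕ} (hn : n < p - 1) : (bernoulli n : ℚ_[p]) ∈ PadicInt.subring p := by
  induction n using Nat.strong_induction_on with
  | _ n ih =>
    rcases Nat.eq_zero_or_pos n with h | h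
    · subst h
      simp only [bernoulli_zero, Rat.cast_one]
      exact Subring.one_mem _
    · have h1 := sum_bernoulli (n + 1)
      rw [if_neg (by omega), sum_range_succ] at h1
      have h2 : (bernoulli n : ℚ_[p]) = -(phi p (cZ p (n + 1))) * ∑ k ∈ range n, (((n + 1).choose k : ℕ) : ℚ_[p]) * (bernoulli k : ℚ_[p]) := by
        rw [phi_cZ p (by omega) (by omega)]
        have h3 := congrArg (fun x : ℚ => (x : ℚ_[p])) h1
        push_cast at h3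
        have h4 : (n : ℚ_[p]) + 1 ≠ 0 := by
          exact_mod_cast Nat.succ_ne_zero n
        rw [Nat.choose_succ_self_right] at h3
        push_cast at h3 ⊢
        field_simp
        linear_combination h3
      rw [h2]
      refine Subring.mul_mem _ (Subring.neg_mem _ ?_) (Subring.sum_mem _ ?_)
      · exact (cZ p (n + 1)).2
      · intro k hk
        rw [mem_range] at hk
        exact Subring.mul_mem _ (natCast_mem _ _) (ih k hk (by omega))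

lemma B1 (hp7 : 7 ≤ p) : ∃ B : ℤ_[p], phi p B = (bernoulli (p - 5) : ℚ_[p]) ∧
    (p : ℤ_[p]) ^ 2 ∣ (∑ k ∈ Ico 1 p, (k : ℤ_[p]) ^ (p - 5)) - p * B := by
  obtain ⟨m, hm⟩ : ∃ m, p = m + 5 := ⟨p - 5, by omega⟩
  have hm5 : p - 5 = m := by omega
  rw [hm5]
  have hmem := bern_int p (show m < p - 1 by omega)
  obtain ⟨B, hB⟩ : ∃ B : ℤ_[p], phi p B = (bernoulli m : ℚ_[p]) := ⟨⟨_, hmem⟩, rfl⟩
  refine ⟨B, hB, ?_⟩
  have h := sum_range_pow p m
  -- the tail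
  have htail : ∃ r : ℤ_[p], phi p r = ∑ i ∈ range m, (bernoulli i : ℚ_[p]) * (((m + 1).choose i : ℕ) : ℚ_[p])
      * (p : ℚ_[p]) ^ (m - 1 - i) * phi p (cZ p (m + 1)) := by
    have hmem2 : (∑ i ∈ range m, (bernoulli i : ℚ_[p]) * (((m + 1).choose i : ℕ) : ℚ_[p])
      * (p : ℚ_[p]) ^ (m - 1 - i) * phi p (cZ p (m + 1))) ∈ PadicInt.subring p := ?_
    · exact ⟨⟨_, hmem2⟩, rfl⟩
    refine Subring.sum_mem _ ?_
    intro i hi
    rw [mem_range] at hi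
    have g1 : (bernoulli i : ℚ_[p]) ∈ PadicInt.subring p := bern_int p (by omega)
    have g2 : (((m + 1).choose i : ℕ) : ℚ_[p]) ∈ PadicInt.subring p := natCast_mem _ _
    have g3 : (p : ℚ_[p]) ∈ PadicInt.subring p := natCast_mem _ _
    exact Subring.mul_mem _ (Subring.mul_mem _ (Subring.mul_mem _ g1 g2)
      (Subring.pow_mem _ g3 _)) (cZ p (m + 1)).2
  obtain ⟨r, hr⟩ := htail
  refine ⟨r, ?_⟩
  apply phi_inj
  rw [map_sub, map_mul, map_mul, map_pow, map_natCast, hr, map_sum]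
  simp only [map_pow, map_natCast]
  have h2 := congrArg (fun x : ℚ => (x : ℚ_[p])) h
  push_cast at h2
  rw [sum_range_succ, range_eq_Ico, sum_eq_sum_Ico_succ_bot (by omega : 0 < p)] at h2
  have hm0 : m ≠ 0 := by omega
  rw [hB, phi_cZ p (by omega) (by omega)]
  have h4 : (m : ℚ_[p]) + 1 ≠ 0 := by
    exact_mod_cast Nat.succ_ne_zero m
  simp only [Nat.cast_zero, zero_pow hm0, zero_add] at h2
  rw [h2]
  have h5 : ∑ i ∈ range m, (bernoulli i : ℚ_[p]) * ((m + 1).choose i : ℚ_[p]) * (p : ℚ_[p]) ^ (m + 1 - i) / ((m : ℚ_[p]) + 1)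
     = (p : ℚ_[p]) ^ 2 * ∑ i ∈ range m, (bernoulli i : ℚ_[p]) * (((m + 1).choose i : ℕ) : ℚ_[p])
      * (p : ℚ_[p]) ^ (m - 1 - i) * (1 / ((m + 1 : ℕ) : ℚ_[p])) := by
    rw [mul_sum]
    refine sum_congr rfl ?_
    intro i hi
    rw [mem_range] at hi
    have e : m + 1 - i = (m - 1 - i) + 2 := by omega
    rw [e, pow_add]
    push_cast
    field_simp
  rw [h5, Nat.choose_succ_self_right]
  have e1 : m + 1 - m = 1 := by omega
  rw [e1]
  push_cast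
  field_simp
  ring

end

end Pool.Agent.H13.CB
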