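import Pool.Agent.H13.CB.Setup

/-! The central binomial coefficient and the constant modulo powers of `p`. -/

namespace Pool.Agent.H13.CB

open Finset

lemma prod_add_factorial (m n : ℕ) : (∏ k ∈ Ico 1 (n + 1), (m + k)) * m.factorial = (m + n).factorial := by
  induction n with
  | zero => simp
  | succ n ih =>
    rw [prod_Ico_succ_top (by omega), mul_right_comm, ih, ← add_assoc, Nat.factorial_succ]
    ring

lemma choose_prod {p : ℕ} (hp : 0 < p) :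
    (2 * p).choose p * ∏ k ∈ Ico 1 p, k = 2 * ∏ k ∈ Ico 1 p, (p + k) := by
  have h1 := prod_add_factorial p p
  have h2 := Nat.choose_mul_factorial_mul_factorial (show p ≤ 2 * p by omega)
  rw [show 2 * p - p = p by omega] at h2
  have h3 : ∏ k ∈ Ico 1 (p + 1), (p + k) = (∏ k ∈ Ico 1 p, (p + k)) * (p + p) := by
    rw [prod_Ico_succ_top (by omega)]
  have h4 : p.factorial = (∏ k ∈ Ico 1 p, k) * p := by
    rw [← prod_Ico_id_eq_factorial, prod_Ico_succ_top (by omega)]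
  have hf : 0 < p.factorial := Nat.factorial_pos p
  rw [h3, ← two_mul p, ← h2] at h1
  have h5 : (∏ k ∈ Ico 1 p, (p + k)) * (2 * p) = (2 * p).choose p * p.factorial :=
    Nat.eq_of_mul_eq_mul_right hf h1
  have h6 : ((2 * p).choose p * ∏ k ∈ Ico 1 p, k) * p = (2 * ∏ k ∈ Ico 1 p, (p + k)) * p := by
    calc _ = (2 * p).choose p * p.factorial := by rw [h4]; ring
      _ = _ := by rw [← h5]; ring
  exact Nat.eq_of_mul_eq_mul_right hp h6

section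
variable (p : ℕ) [hp : Fact p.Prime]

lemma isUnit_prod : IsUnit (∏ k ∈ Ico 1 p, (k : ℤ_[p])) := by
  rw [IsUnit.prod_iff]
  intro k hk
  rw [mem_Ico] at hk
  exact isUnit_natCast p (by omega) hk.2

lemma choose_eq_prod (hodd : Odd p) :
    ((2 * p).choose p : ℤ_[p]) = 2 * ∏ k ∈ Ico 1 p, (1 - (p : ℤ_[p]) ^ 2 * cZ p k ^ 2) := by
  have hp0 := hp.out.pos
  have h1 : ((2 * p).choose p : ℤ_[p]) * ∏ k ∈ Ico 1 p, (k : ℤ_[p]) = 2 * ∏ k ∈ Ico 1 p, ((p : ℤ_[p]) + k) := by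
    have := congrArg (fun n : ℕ => (n : ℤ_[p])) (choose_prod hp0)
    push_cast at this
    exact this
  have h2 : ∏ k ∈ Ico 1 p, (k : ℤ_[p]) = ∏ k ∈ Ico 1 p, ((p : ℤ_[p]) - k) := by
    refine prod_nbij' (fun i => p - i) (fun i => p - i) ?_ ?_ ?_ ?_ ?_
    · intro i h; simp only [mem_Ico] at h ⊢; omega
    · intro i h; simp only [mem_Ico] at h ⊢; omega
    · intro i h; simp only [mem_Ico] at h ⊢; omega
    · intro i h; simp only [mem_Ico] at h ⊢; omega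
    · intro i h
      simp only [mem_Ico] at h
      rw [Nat.cast_sub (by omega)]
      ring
  have h3 : (∏ k ∈ Ico 1 p, ((p : ℤ_[p]) + k)) * ∏ k ∈ Ico 1 p, ((p : ℤ_[p]) - k)
      = ((∏ k ∈ Ico 1 p, (k : ℤ_[p])) * ∏ k ∈ Ico 1 p, (k : ℤ_[p]))
        * ∏ k ∈ Ico 1 p, (1 - (p : ℤ_[p]) ^ 2 * cZ p k ^ 2) := by
    rw [← prod_mul_distrib, ← prod_mul_distrib, ← prod_mul_distrib]
    have e : ∀ k ∈ Ico 1 p, ((p : ℤ_[p]) + k) * ((p : ℤ_[p]) - k)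
        = (-1) * ((k : ℤ_[p]) * k * (1 - (p : ℤ_[p]) ^ 2 * cZ p k ^ 2)) := by
      intro k hk
      rw [mem_Ico] at hk
      have := natCast_mul_cZ p (show 0 < k by omega) hk.2
      linear_combination (-(p : ℤ_[p]) ^ 2 * (k * cZ p k + 1)) * this
    rw [prod_congr rfl e, prod_mul_distrib, prod_const, Nat.card_Ico]
    have he : Even (p - 1) := by
      obtain ⟨k, hk⟩ := hodd
      exact ⟨k, by omega⟩
    rw [he.neg_one_pow, one_mul]
  have hu := isUnit_prod p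
  have h4 : ((2 * p).choose p : ℤ_[p]) * ((∏ k ∈ Ico 1 p, (k : ℤ_[p])) * ∏ k ∈ Ico 1 p, (k : ℤ_[p]))
      = (2 * ∏ k ∈ Ico 1 p, (1 - (p : ℤ_[p]) ^ 2 * cZ p k ^ 2)) * ((∏ k ∈ Ico 1 p, (k : ℤ_[p])) * ∏ k ∈ Ico 1 p, (k : ℤ_[p])) := by
    calc _ = (((2 * p).choose p : ℤ_[p]) * ∏ k ∈ Ico 1 p, (k : ℤ_[p])) * ∏ k ∈ Ico 1 p, (k : ℤ_[p]) := by ring
      _ = (2 * ∏ k ∈ Ico 1 p, ((p : ℤ_[p]) + k)) * ∏ k ∈ Ico 1 p, ((p : ℤ_[p]) - k) := by rw [h1, ← h2]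
      _ = 2 * ((∏ k ∈ Ico 1 p, ((p : ℤ_[p]) + k)) * ∏ k ∈ Ico 1 p, ((p : ℤ_[p]) - k)) := by ring
      _ = _ := by rw [h3]; ring
  exact (hu.mul hu).mul_right_cancel h4

end

lemma prod_expand {A : Type*} [CommRing A] (q : A) (x : ℕ → A) (s : Finset ℕ) :
    ∃ e, 2 * ∏ k ∈ s, (1 - q * x k)
      = 2 - 2 * q * ∑ k ∈ s, x k + q ^ 2 * ((∑ k ∈ s, x k) ^ 2 - ∑ k ∈ s, x k ^ 2) + q ^ 3 * e := by
  classical
  induction s using Finset.induction_on with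
  | empty => exact ⟨0, by simp⟩
  | insert a s ha ih =>
    obtain ⟨e, he⟩ := ih
    refine ⟨e * (1 - q * x a) - x a * ((∑ k ∈ s, x k) ^ 2 - ∑ k ∈ s, x k ^ 2), ?_⟩
    rw [prod_insert ha, sum_insert ha, sum_insert ha]
    linear_combination (1 - q * x a) * he

section
variable (p : ℕ) [hp : Fact p.Prime]

/-- multiplication by `d` modulo `p` -/
lemma mulmod_sum {A : Type*} [AddCommMonoid A] {d : ℕ} (hd0 : 0 < d) (hd : d < p) (f : ℕ → A) :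
    ∑ k ∈ Ico 1 p, f ((d * k) % p) = ∑ j ∈ Ico 1 p, f j := by
  have hcop : Nat.Coprime d p := (Nat.Prime.coprime_iff_not_dvd hp.out).mpr
    (fun h => absurd (Nat.le_of_dvd hd0 h) (by omega)) |>.symm
  refine sum_nbij (fun k => (d * k) % p) ?_ ?_ ?_ ?_
  · intro k hk
    simp only [mem_Ico] at hk ⊢
    refine ⟨?_, Nat.mod_lt _ hp.out.pos⟩
    rw [Nat.one_le_iff_ne_zero]
    intro h
    have h1 : p ∣ d * k := Nat.dvd_of_mod_eq_zero h
    have h2 : p ∣ k := (Nat.Coprime.dvd_of_dvd_mul_left hcop.symm h1)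
    exact absurd (Nat.le_of_dvd (by omega) h2) (by omega)
  · intro a ha b hb hab
    simp only [coe_Ico, Set.mem_Ico] at ha hb
    have h1 : (d * a) ≡ (d * b) [MOD p] := hab
    have h2 : a ≡ b [MOD p] := Nat.ModEq.cancel_left_of_coprime hcop.symm h1
    rwa [Nat.ModEq, Nat.mod_eq_of_lt ha.2, Nat.mod_eq_of_lt hb.2] at h2
  · have hmaps : Set.MapsTo (fun k => (d * k) % p) (Ico 1 p : Finset ℕ) (Ico 1 p : Finset ℕ) := by
      intro k hk
      simp only [coe_Ico, Set.mem_Ico] at hk ⊢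
      refine ⟨?_, Nat.mod_lt _ hp.out.pos⟩
      rw [Nat.one_le_iff_ne_zero]
      intro h
      have h1 : p ∣ d * k := Nat.dvd_of_mod_eq_zero h
      have h2 : p ∣ k := (Nat.Coprime.dvd_of_dvd_mul_left hcop.symm h1)
      exact absurd (Nat.le_of_dvd (by omega) h2) (by omega)
    have hinj : Set.InjOn (fun k => (d * k) % p) (Ico 1 p : Finset ℕ) := by
      intro a ha b hb hab
      simp only [coe_Ico, Set.mem_Ico] at ha hb
      have h1 : (d * a) ≡ (d * b) [MOD p] := hab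
      have h2 : a ≡ b [MOD p] := Nat.ModEq.cancel_left_of_coprime hcop.symm h1
      rwa [Nat.ModEq, Nat.mod_eq_of_lt ha.2, Nat.mod_eq_of_lt hb.2] at h2
    exact Finset.surjOn_of_injOn_of_card_le _ hmaps hinj le_rfl
  · intro k _
    rfl

/-- `c_k` in terms of `c_j`, where `d k = j + p a`. -/
lemma c_scale {A : Type*} [CommRing A] {c : ℕ → A} {p : ℕ}
    (hc : ∀ k, 0 < k → k < p → (k : A) * c k = 1) {d k j a : ℕ} (hk0 : 0 < k) (hk : k < p)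
    (hj0 : 0 < j) (hj : j < p) (h : d * k = j + p * a) :
    c k = d * c j - p * a * c j * c k := by
  have h1 := hc k hk0 hk
  have h2 := hc j hj0 hj
  have h3 : (d : A) * k = j + p * a := by exact_mod_cast congrArg (fun n : ℕ => (n : A)) h
  linear_combination (d * c j) * h1 - (c k) * h2 - (c j * c k) * h3

lemma dvd_HZ_of {s : ℕ} (hu : IsUnit ((2 : ℤ_[p]) ^ s - 1)) (hp2 : 2 < p) : (p : ℤ_[p]) ∣ HZ p s := by
  have h1 : ∀ k ∈ Ico 1 p, ∃ e, cZ p k ^ s = 2 ^ s * cZ p ((2 * k) % p) ^ s + p * e := by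
    intro k hk
    rw [mem_Ico] at hk
    have hj : 0 < (2 * k) % p := by
      rw [Nat.pos_iff_ne_zero]
      intro h
      have h1 : p ∣ 2 * k := Nat.dvd_of_mod_eq_zero h
      rcases (Nat.Prime.dvd_mul hp.out).mp h1 with h2 | h2
      · exact absurd (Nat.le_of_dvd (by omega) h2) (by omega)
      · exact absurd (Nat.le_of_dvd (by omega) h2) (by omega)
    have h3 := c_scale (fun k h0 h1 => natCast_mul_cZ p h0 h1) (d := 2) (show 0 < k by omega) hk.2 hj (Nat.mod_lt _ hp.out.pos)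
      (Nat.mod_add_div (2 * k) p).symm
    have h4 : (p : ℤ_[p]) ∣ cZ p k - 2 * cZ p ((2 * k) % p) := by
      refine ⟨-((2 * k / p : ℕ) * cZ p ((2 * k) % p) * cZ p k), ?_⟩
      push_cast at h3 ⊢
      linear_combination h3
    obtain ⟨e, he⟩ := h4.trans (sub_dvd_pow_sub_pow (cZ p k) (2 * cZ p ((2 * k) % p)) s)
    refine ⟨e, ?_⟩
    rw [mul_pow] at he
    linear_combination he
  choose! e he using h1
  have h2 : HZ p s = 2 ^ s * HZ p s + p * ∑ k ∈ Ico 1 p, e k := by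
    conv_lhs => rw [HZ, sum_congr rfl he, sum_add_distrib, ← mul_sum, ← mul_sum,
      mulmod_sum p (by omega) hp2 (fun j => cZ p j ^ s)]
    rfl
  have h3 : (p : ℤ_[p]) ∣ (2 ^ s - 1) * HZ p s := ⟨-∑ k ∈ Ico 1 p, e k, by linear_combination -h2⟩
  exact (hu.dvd_mul_left).mp h3

lemma isUnit_intCast_of {n : ℤ} (h : ¬ (p : ℤ) ∣ n) : IsUnit (n : ℤ_[p]) := by
  rw [PadicInt.isUnit_iff]
  by_contra h2
  have h3 : ‖(n : ℤ_[p])‖ < 1 := lt_of_le_of_ne (PadicInt.norm_le_one _) h2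
  exact h ((PadicInt.norm_int_lt_one_iff_dvd n).mp h3)

lemma isUnit_small (hp7 : 7 ≤ p) {n : ℕ} (h : n = 2 ∨ n = 3 ∨ n = 4 ∨ n = 5 ∨ n = 6) : IsUnit (n : ℤ_[p]) :=
  isUnit_natCast p (by omega) (by omega)

lemma dvd_HZ2 (hp7 : 7 ≤ p) : (p : ℤ_[p]) ∣ HZ p 2 := by
  apply dvd_HZ_of p _ (by omega)
  have := isUnit_small p hp7 (n := 3) (by omega)
  convert this using 1
  norm_num

lemma dvd_HZ4 (hp7 : 7 ≤ p) : (p : ℤ_[p]) ∣ HZ p 4 := by
  apply dvd_HZ_of p _ (by omega)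
  have h3 := isUnit_small p hp7 (n := 3) (by omega)
  have h5 := isUnit_small p hp7 (n := 5) (by omega)
  convert h3.mul h5 using 1
  norm_num

lemma p_ne_zero : (p : ℤ_[p]) ≠ 0 := by
  exact_mod_cast hp.out.ne_zero

lemma choose_congr (hp7 : 7 ≤ p) (hodd : Odd p) :
    ∃ e, ((2 * p).choose p : ℤ_[p]) = 2 - 2 * (p : ℤ_[p]) ^ 2 * HZ p 2
      + (p : ℤ_[p]) ^ 4 * (HZ p 2 ^ 2 - HZ p 4) + (p : ℤ_[p]) ^ 6 * e := by
  obtain ⟨e, he⟩ := prod_expand ((p : ℤ_[p]) ^ 2) (fun k => cZ p k ^ 2) (Ico 1 p)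
  refine ⟨e, ?_⟩
  rw [choose_eq_prod p hodd, he]
  simp only [HZ, ← pow_mul]

lemma KZ_congr (hp7 : 7 ≤ p) (hodd : Odd p) : (p : ℤ_[p]) ^ 3 ∣ KZ p - p * HZ p 4 := by
  obtain ⟨e, he⟩ := choose_congr p hp7 hodd
  obtain ⟨g, hg⟩ := dvd_HZ2 p hp7
  have h := KZ_eq p hodd
  rw [he] at h
  have h2 : (p : ℤ_[p]) ^ 3 * (KZ p - p * HZ p 4) = (p : ℤ_[p]) ^ 3 * ((p : ℤ_[p]) ^ 3
    * (g ^ 2 - (p * g) ^ 3 + (p * g) * HZ p 4 - e * (1 + p ^ 2 * (p * g)))) := by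
    rw [hg] at h
    linear_combination h
  have h3 := mul_left_cancel₀ (pow_ne_zero 3 (p_ne_zero p)) h2
  exact ⟨_, h3⟩

lemma choose_congr3 (hp7 : 7 ≤ p) (hodd : Odd p) : (p : ℤ_[p]) ^ 3 ∣ ((2 * p).choose p : ℤ_[p]) - 2 := by
  obtain ⟨e, he⟩ := choose_congr p hp7 hodd
  obtain ⟨g, hg⟩ := dvd_HZ2 p hp7
  refine ⟨- 2 * g + p * (HZ p 2 ^ 2 - HZ p 4) + p ^ 3 * e, ?_⟩
  rw [he, hg]
  ring

end

end Pool.Agent.H13.CB
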