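import Mathlib

/-! Exact rational identities for central binomial sums with second order harmonic numbers. -/

namespace Pool.Agent.H13.CB

open Finset

/-- second order harmonic number as a rational -/
def HH (k : ℕ) : ℚ := ∑ l ∈ range k, 1 / ((l : ℚ) + 1) ^ 2

lemma HH_succ (k : ℕ) : HH (k + 1) = HH k + 1 / ((k : ℚ) + 1) ^ 2 := by
  simp [HH, sum_range_succ]

lemma HH_zero : HH 0 = 0 := by simp [HH]

/-- `DD j r = 2 j * prod_{l ≤ r} (j^2 - l^2) / (r+1)!^2 * ...` -/
noncomputable def DD (j r : ℕ) : ℚ :=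
  ((2 * (r + 1)).choose (r + 1) : ℚ) / ((r : ℚ) + 1) * ((j + r).choose (2 * r + 1) : ℚ)

lemma DD_zero (j : ℕ) : DD j 0 = 2 * j := by
  simp [DD]

lemma DD_self (j : ℕ) : DD j j = 0 := by
  have : (j + j).choose (2 * j + 1) = 0 := Nat.choose_eq_zero_of_lt (by omega)
  simp [DD, this]

lemma DD_succ (j r : ℕ) : ((r : ℚ) + 2) ^ 2 * DD j (r + 1) = ((j : ℚ) ^ 2 - (r + 1) ^ 2) * DD j r := by
  have h1 : ((r : ℚ) + 1 + 1) * ((2 * (r + 1 + 1)).choose (r + 1 + 1) : ℚ)
      = 2 * (2 * (r + 1) + 1) * ((2 * (r + 1)).choose (r + 1) : ℚ) := by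
    have := Nat.succ_mul_centralBinom_succ (r + 1)
    simp only [Nat.centralBinom] at this
    exact_mod_cast this
  -- choose (j+r+1) (2r+3) * (2r+3) * (2r+2) = choose (j+r) (2r+1) * (j+r+1) * (j-r-1)
  have h2 : ((j + r + 1).choose (2 * r + 3) : ℚ) * (2 * r + 3) * (2 * r + 2)
      = ((j + r).choose (2 * r + 1) : ℚ) * ((j : ℚ) + r + 1) * ((j : ℚ) - r - 1) := by
    have e1 : ((j + r + 1).choose (2 * r + 3) : ℚ) * (2 * r + 3)
        = ((j : ℚ) + r + 1) * ((j + r).choose (2 * r + 2) : ℚ) := by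
      have := Nat.add_one_mul_choose_eq (j + r) (2 * r + 2)
      have h : (((j + r + 1) * (j + r).choose (2 * r + 2) : ℕ) : ℚ)
        = (((j + r + 1).choose (2 * r + 2 + 1) * (2 * r + 2 + 1) : ℕ) : ℚ) := by rw [this]
      push_cast at h
      rw [show 2 * r + 2 + 1 = 2 * r + 3 from rfl] at h
      linear_combination -h
    have e2 : ((j + r).choose (2 * r + 2) : ℚ) * (2 * r + 2)
        = ((j + r).choose (2 * r + 1) : ℚ) * ((j : ℚ) - r - 1) := by
      rcases le_or_gt (2 * r + 1) (j + r) with hle | hlt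
      · have := Nat.choose_succ_right_eq (j + r) (2 * r + 1)
        have h : (((j + r).choose (2 * r + 1 + 1) * (2 * r + 1 + 1) : ℕ) : ℚ)
          = (((j + r).choose (2 * r + 1) * (j + r - (2 * r + 1)) : ℕ) : ℚ) := by rw [this]
        rw [Nat.cast_mul, Nat.cast_mul, Nat.cast_sub hle] at h
        push_cast at h
        rw [show 2 * r + 1 + 1 = 2 * r + 2 from rfl] at h
        linear_combination h
      · rw [Nat.choose_eq_zero_of_lt (show j + r < 2 * r + 2 by omega)]
        rw [Nat.choose_eq_zero_of_lt hlt]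
        simp
    linear_combination (2 * (r : ℚ) + 2) * e1 + ((j : ℚ) + r + 1) * e2
  unfold DD
  rw [show j + (r + 1) = j + r + 1 from rfl, show 2 * (r + 1) + 1 = 2 * r + 3 from by ring]
  have hr1 : ((r : ℚ) + 1) ≠ 0 := by positivity
  have hr2 : ((r : ℚ) + 1 + 1) ≠ 0 := by positivity
  push_cast
  have h23 : (2 * (r : ℚ) + 3) ≠ 0 := by positivity
  field_simp
  have h1' : ((2 * (r + 1 + 1)).choose (r + 1 + 1) : ℚ)
      = 2 * (2 * (r + 1) + 1) * ((2 * (r + 1)).choose (r + 1) : ℚ) / ((r : ℚ) + 1 + 1) := by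
    field_simp
    linear_combination h1
  have h2' : ((j + r + 1).choose (2 * r + 3) : ℚ)
      = ((j + r).choose (2 * r + 1) : ℚ) * ((j : ℚ) + r + 1) * ((j : ℚ) - r - 1)
        / ((2 * r + 3) * (2 * r + 2)) := by
    field_simp
    linear_combination h2
  rw [h1', h2']
  field_simp
  ring

/-- telescoping -/
lemma sum_DD (j : ℕ) (hj : 0 < j) (r : ℕ) :
    ∑ k ∈ range r, (-1 : ℚ) ^ (k + 1) * DD j k * HH (k + 1)
      = - 2 / (j : ℚ) ^ 3 + (-1) ^ r * DD j r * ((r : ℚ) + 1) ^ 2 * (1 / (j : ℚ) ^ 4 + HH r / (j : ℚ) ^ 2) := by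
  have hj' : (j : ℚ) ≠ 0 := by positivity
  induction r with
  | zero =>
    simp only [range_zero, sum_empty, DD_zero, HH_zero]
    field_simp
    norm_num
  | succ r ih =>
    rw [sum_range_succ, ih]
    have h := DD_succ j r
    have hr1 : ((r : ℚ) + 1) ≠ 0 := by positivity
    have hr2 : ((r : ℚ) + 2) ≠ 0 := by positivity
    rw [HH_succ]
    have h' : DD j (r + 1) = ((j : ℚ) ^ 2 - (r + 1) ^ 2) * DD j r / ((r : ℚ) + 2) ^ 2 := by
      field_simp
      linear_combination h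
    rw [h']
    push_cast
    field_simp
    ring

lemma sum_DD_self (j : ℕ) (hj : 0 < j) :
    ∑ k ∈ range j, (-1 : ℚ) ^ (k + 1) * DD j k * HH (k + 1) = - 2 / (j : ℚ) ^ 3 := by
  rw [sum_DD j hj j, DD_self]
  simp

/-- signed binomial coefficient -/
def eps (N i : ℕ) : ℤ := (-1) ^ i * ((2 * N).choose i : ℤ)

/-- the summand of the central binomial sum (without the power) -/
def ss (k : ℕ) : ℚ := ((2 * k).choose k : ℚ) * HH k / k

lemma coeff_one_sub_X_pow (m i : ℕ) :
    PowerSeries.coeff i ((1 - PowerSeries.X : PowerSeries ℚ) ^ m) = (-1) ^ i * (m.choose i : ℚ) := by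
  induction m generalizing i with
  | zero =>
    rcases i with _ | i <;> simp [PowerSeries.coeff_one]
  | succ m ih =>
    rw [pow_succ, mul_sub, mul_one, map_sub, ih]
    rcases i with _ | i
    · simp
    · rw [PowerSeries.coeff_succ_mul_X, ih, Nat.choose_succ_succ]
      push_cast
      ring

lemma coeff_geom_pow (d n : ℕ) :
    PowerSeries.coeff n ((PowerSeries.mk 1 : PowerSeries ℚ) ^ (d + 1)) = ((d + n).choose d : ℚ) := by
  rw [PowerSeries.mk_one_pow_eq_mk_choose_add]; simp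

lemma exact_coeff (N n : ℕ) (hn : 0 < n) (hnN : n ≤ N) :
    ∑ r ∈ range n, (-1 : ℚ) ^ n * (ss (r + 1) * ((2 * N - 2 * (r + 1)).choose (n - (r + 1)) : ℚ))
      = ∑ j ∈ range (n + 1), (eps N (n - j) : ℚ) * (-2 / (j : ℚ) ^ 3) := by
  classical
  set y : PowerSeries ℚ := PowerSeries.mk 1 with hy
  have hy1 : (1 - PowerSeries.X : PowerSeries ℚ) * y = 1 := by
    rw [mul_comm]; exact PowerSeries.mk_one_mul_one_sub_eq_one ℚ
  set F : PowerSeries ℚ := ∑ r ∈ range n, PowerSeries.C (ss (r + 1) * (-1) ^ (r + 1)) *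
    (PowerSeries.X ^ (r + 1) * y ^ (2 * r + 1 + 1)) with hF
  have hFc : ∀ j, j ≤ n → PowerSeries.coeff j F = -2 / (j : ℚ) ^ 3 := by
    intro j hj
    rw [hF, map_sum]
    have h1 : ∀ r ∈ range n, PowerSeries.coeff j (PowerSeries.C (ss (r + 1) * (-1) ^ (r + 1)) *
        (PowerSeries.X ^ (r + 1) * y ^ (2 * r + 1 + 1)))
        = if r < j then (-1 : ℚ) ^ (r + 1) * DD j r * HH (r + 1) else 0 := by
      intro r _
      rw [PowerSeries.coeff_C_mul, PowerSeries.coeff_X_pow_mul']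
      by_cases hr : r < j
      · rw [if_pos (show r + 1 ≤ j by omega), if_pos hr, hy, coeff_geom_pow]
        rw [show 2 * r + 1 + (j - (r + 1)) = j + r by omega]
        unfold ss DD
        push_cast
        have hr1 : ((r : ℚ) + 1) ≠ 0 := by positivity
        field_simp
      · rw [if_neg (show ¬ (r + 1 ≤ j) by omega), if_neg hr, mul_zero]
    rw [sum_congr rfl h1, ← sum_filter]
    have h2 : (range n).filter (fun r => r < j) = range j := by
      ext r; simp only [mem_filter, mem_range]; omega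
    rw [h2]
    rcases Nat.eq_zero_or_pos j with h0 | h0
    · subst h0; simp
    · exact sum_DD_self j h0
  have hP : (1 - PowerSeries.X : PowerSeries ℚ) ^ (2 * N) * F
      = ∑ r ∈ range n, PowerSeries.C (ss (r + 1) * (-1) ^ (r + 1)) *
        (PowerSeries.X ^ (r + 1) * (1 - PowerSeries.X) ^ (2 * N - 2 * (r + 1))) := by
    rw [hF, mul_sum]
    refine sum_congr rfl ?_
    intro r hr
    rw [mem_range] at hr
    have e : (1 - PowerSeries.X : PowerSeries ℚ) ^ (2 * N)
        = (1 - PowerSeries.X) ^ (2 * N - 2 * (r + 1)) * (1 - PowerSeries.X) ^ (2 * r + 1 + 1) := by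
      rw [← pow_add]; congr 1; omega
    rw [e]
    have e2 : (1 - PowerSeries.X : PowerSeries ℚ) ^ (2 * r + 1 + 1) * y ^ (2 * r + 1 + 1) = 1 := by
      rw [← mul_pow, hy1, one_pow]
    calc _ = PowerSeries.C (ss (r + 1) * (-1) ^ (r + 1)) * (PowerSeries.X ^ (r + 1)
          * (1 - PowerSeries.X) ^ (2 * N - 2 * (r + 1)))
          * ((1 - PowerSeries.X : PowerSeries ℚ) ^ (2 * r + 1 + 1) * y ^ (2 * r + 1 + 1)) := by ring
      _ = _ := by rw [e2, mul_one]
  have hL := congrArg (PowerSeries.coeff n) hP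
  rw [map_sum, PowerSeries.coeff_mul] at hL
  have hR : ∀ r ∈ range n, PowerSeries.coeff n (PowerSeries.C (ss (r + 1) * (-1) ^ (r + 1)) *
        (PowerSeries.X ^ (r + 1) * (1 - PowerSeries.X : PowerSeries ℚ) ^ (2 * N - 2 * (r + 1))))
      = (-1 : ℚ) ^ n * (ss (r + 1) * ((2 * N - 2 * (r + 1)).choose (n - (r + 1)) : ℚ)) := by
    intro r hr
    rw [mem_range] at hr
    rw [PowerSeries.coeff_C_mul, PowerSeries.coeff_X_pow_mul', if_pos (show r + 1 ≤ n by omega),
      coeff_one_sub_X_pow]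
    have e : (-1 : ℚ) ^ n = (-1) ^ (r + 1) * (-1) ^ (n - (r + 1)) := by
      rw [← pow_add]; congr 1; omega
    rw [e]; ring
  rw [sum_congr rfl hR] at hL
  rw [← hL, Nat.sum_antidiagonal_eq_sum_range_succ_mk, ← sum_range_reflect]
  refine sum_congr rfl ?_
  intro j hj
  rw [mem_range] at hj
  have e1 : n.succ - 1 - j = n - j := by omega
  have e2 : n - (n - j) = j := by omega
  rw [e1]
  simp only
  rw [e2, coeff_one_sub_X_pow, hFc j (by omega)]
  unfold eps
  push_cast
  ring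

end Pool.Agent.H13.CB
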