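import Pool.Agent.H13.CB.Vals
import Pool.Agent.H13.CB.Bern

/-! Assembly. -/

namespace Pool.Agent.H13.CB

open Finset

/-- the pattern for the parameter `m` -/
def UU (m : ℕ) (a : ℕ) : ℤ := if m = 4 then U4 a else if m = 3 then U3 a else if m = 2 then U2 a else U1 a

/-- traces of the powers of the root of unity -/
def VV (m n : ℕ) : ℤ := UU m ((n + 11) % 12)

lemma VV_rec_aux (m : ℕ) (hm : m = 1 ∨ m = 2 ∨ m = 3 ∨ m = 4) (r : ℕ) (hr : r < 12) :
    VV m ((r + 2) % 12) = (2 - (m : ℤ)) * VV m ((r + 1) % 12) - VV m r := by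
  rcases hm with h | h | h | h <;> subst h <;> revert r <;> decide

lemma VV_rec (m : ℕ) (hm : m = 1 ∨ m = 2 ∨ m = 3 ∨ m = 4) (n : ℕ) :
    VV m ((n + 2) % 12) = (2 - (m : ℤ)) * VV m ((n + 1) % 12) - VV m (n % 12) := by
  have h := VV_rec_aux m hm (n % 12) (Nat.mod_lt _ (by norm_num))
  rw [show (n % 12 + 2) % 12 = (n + 2) % 12 by omega, show (n % 12 + 1) % 12 = (n + 1) % 12 by omega] at h
  exact h

lemma VV_zero (m : ℕ) (hm : m = 1 ∨ m = 2 ∨ m = 3 ∨ m = 4) : VV m 0 = 2 := by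
  rcases hm with h | h | h | h <;> subst h <;> decide

lemma VV_unit (m : ℕ) (hm : m = 1 ∨ m = 2 ∨ m = 3 ∨ m = 4) {r : ℕ} (hr : r = 1 ∨ r = 5 ∨ r = 7 ∨ r = 11) :
    VV m r = 2 - (m : ℤ) := by
  rcases hm with h | h | h | h <;> subst h <;> rcases hr with h | h | h | h <;> subst h <;> decide

lemma VV_twist (m : ℕ) (hm : m = 1 ∨ m = 2 ∨ m = 3 ∨ m = 4) {r : ℕ} (hr : r = 1 ∨ r = 5 ∨ r = 7 ∨ r = 11)
    (a : ℕ) (ha : a < 12) : VV m ((r * (1 + a)) % 12) = UU m a := by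
  rcases hm with h | h | h | h <;> subst h <;> rcases hr with h | h | h | h <;> subst h <;> revert a <;> decide

lemma prime_mod {p : ℕ} (hp : p.Prime) (hp7 : 7 ≤ p) : p % 12 = 1 ∨ p % 12 = 5 ∨ p % 12 = 7 ∨ p % 12 = 11 := by
  have h2 : p % 2 = 1 := by
    rcases hp.eq_two_or_odd with h | h
    · omega
    · exact h
  have h3 : p % 3 ≠ 0 := by
    intro h
    have h4 : 3 ∣ p := Nat.dvd_of_mod_eq_zero h
    rcases (Nat.dvd_prime hp).mp h4 with h5 | h5 <;> omega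
  omega

section
variable {R : Type*} [CommRing R]

lemma trace_pow {m : ℕ} (hm : m = 1 ∨ m = 2 ∨ m = 3 ∨ m = 4) {t ti : R} (h1 : t * ti = 1)
    (h2 : t + ti = 2 - m) (n : ℕ) : t ^ n + ti ^ n = (VV m (n % 12) : R) := by
  have key : t ^ n + ti ^ n = (VV m (n % 12) : R) ∧ t ^ (n + 1) + ti ^ (n + 1) = (VV m ((n + 1) % 12) : R) := by
    induction n with
    | zero =>
      constructor
      · rw [Nat.zero_mod, VV_zero m hm]
        norm_num
      · rw [show (0 + 1) % 12 = 1 by norm_num, VV_unit m hm (Or.inl rfl)]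
        push_cast
        linear_combination h2
    | succ n ih =>
      obtain ⟨ih1, ih2⟩ := ih
      refine ⟨ih2, ?_⟩
      have h := VV_rec m hm n
      rw [show n + 1 + 1 = n + 2 by ring, h]
      push_cast
      rw [← ih1, ← ih2]
      linear_combination (t ^ (n + 1) + ti ^ (n + 1)) * h2 - (t ^ n + ti ^ n) * h1
  exact key.1

lemma al_pow {p : ℕ} (hp : p.Prime) (hp7 : 7 ≤ p) {j : ℕ} (hj : j < p) :
    (p - j) % 12 = ((p % 12) * (1 + al p j)) % 12 := by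
  have h := p_sq_mod hp hp7
  unfold al
  obtain ⟨q, hq⟩ : ∃ q, p * p = 12 * q + 1 := ⟨p * p / 12, by omega⟩
  obtain ⟨r, hr⟩ : ∃ r, 11 * p * j = 12 * r + (11 * p * j) % 12 := ⟨11 * p * j / 12, by omega⟩
  set a := (11 * p * j) % 12
  -- p * (12 r + a) = 11 (p p) j = 11 (12 q + 1) j
  have e : p * (12 * r + a) = 11 * (12 * q + 1) * j := by
    rw [← hr, ← hq]; ring
  have e1 : p * (12 * r + a) = 12 * (p * r) + p * a := by ring
  have e2 : 11 * (12 * q + 1) * j = 132 * (q * j) + 11 * j := by ring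
  rw [e1, e2] at e
  have e3 : ((p % 12) * (1 + a)) % 12 = (p * (1 + a)) % 12 := by
    rw [Nat.mod_mul_mod]
  rw [e3, mul_add, mul_one]
  generalize p * r = x at *
  generalize q * j = y at *
  generalize p * a = z at *
  omega

lemma trace_al {p : ℕ} (hp : p.Prime) (hp7 : 7 ≤ p) {m : ℕ} (hm : m = 1 ∨ m = 2 ∨ m = 3 ∨ m = 4)
    {t ti : R} (h1 : t * ti = 1) (h2 : t + ti = 2 - m) {j : ℕ} (hj : j < p) :
    t ^ (p - j) + ti ^ (p - j) = (UU m (al p j) : R) := by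
  rw [trace_pow hm h1 h2, al_pow hp hp7 hj, VV_twist m hm (prime_mod hp hp7) _ (al_lt p j)]

end

section
variable (p : ℕ) [hp : Fact p.Prime]

/-- the sum -/
noncomputable def SZ (m : ℕ) : ℤ_[p] := ∑ k ∈ Ico 1 p, sZ p k * cZ p m ^ k

/-- the twisted sums -/
noncomputable def sig (m s : ℕ) : ℤ_[p] := ∑ j ∈ Ico 1 p, (UU m (al p j) : ℤ_[p]) * cZ p j ^ s

open QuadraticAlgebra in
lemma exists_ring (m : ℕ) :
    ∃ (R : Type) (_ : CommRing R) (f : ℤ_[p] →+* R) (t ti : R),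
      (∀ x, f x = 0 ↔ (p : ℤ_[p]) ^ 3 ∣ x) ∧ t * ti = 1 ∧ t + ti = 2 - (m : R) := by
  refine ⟨QuadraticAlgebra (ZMod (p ^ 3)) (-1) (2 - (m : ZMod (p ^ 3))), inferInstance,
    (algebraMap (ZMod (p ^ 3)) _).comp (PadicInt.toZModPow 3), ⟨0, 1⟩, ⟨2 - (m : ZMod (p ^ 3)), -1⟩, ?_, ?_, ?_⟩
  · intro x
    rw [RingHom.comp_apply]
    have h1 : algebraMap (ZMod (p ^ 3)) (QuadraticAlgebra (ZMod (p ^ 3)) (-1) (2 - (m : ZMod (p ^ 3)))) (PadicInt.toZModPow 3 x) = 0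
        ↔ PadicInt.toZModPow 3 x = 0 := by
      constructor
      · intro h
        have := congrArg QuadraticAlgebra.re h
        simpa using this
      · intro h
        rw [h, map_zero]
    rw [h1, ← RingHom.mem_ker, PadicInt.ker_toZModPow, Ideal.mem_span_singleton]
  · ext
    · simp
    · simp
  · ext
    · simp
    · simp

lemma main3 (hp7 : 7 ≤ p) {m : ℕ} (hm : m = 1 ∨ m = 2 ∨ m = 3 ∨ m = 4) :
    (p : ℤ_[p]) ^ 3 ∣ (m : ℤ_[p]) ^ 2 * SZ p m - (2 * m * sig p m 3 - 20 * p ^ 2 * sig p m 5 + m * (p * HZ p 4)) := by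
  have hodd : Odd p := by
    rcases hp.out.eq_two_or_odd' with h | h
    · omega
    · exact h
  obtain ⟨R, hR, f, t, ti, hf, ht, ht2⟩ := exists_ring p m
  have hp3 : (p : R) ^ 3 = 0 := by
    have : f ((p : ℤ_[p]) ^ 3) = 0 := (hf _).mpr dvd_rfl
    rw [map_pow, map_natCast] at this
    exact this
  have hc : ∀ k, 0 < k → k < p → (k : R) * f (cZ p k) = 1 := by
    intro k h0 h1
    have := congrArg f (natCast_mul_cZ p h0 h1)
    rw [map_mul, map_natCast, map_one] at this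
    exact this
  have H2 : (p : R) ^ 2 * ∑ k ∈ Ico 1 p, f (cZ p k) ^ 2 = 0 := by
    obtain ⟨e, he⟩ := dvd_HZ2 p hp7
    have : f ((p : ℤ_[p]) ^ 2 * HZ p 2) = 0 := (hf _).mpr ⟨e, by rw [he]; ring⟩
    rw [HZ, map_mul, map_pow, map_natCast, map_sum] at this
    simpa using this
  have H4 : (p : R) ^ 2 * ∑ k ∈ Ico 1 p, f (cZ p k) ^ 4 = 0 := by
    obtain ⟨e, he⟩ := dvd_HZ4 p hp7
    have : f ((p : ℤ_[p]) ^ 2 * HZ p 4) = 0 := (hf _).mpr ⟨e, by rw [he]; ring⟩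
    rw [HZ, map_mul, map_pow, map_natCast, map_sum] at this
    simpa using this
  have hcent : ((2 * p).choose p : R) = 2 := by
    have := (hf _).mpr (choose_congr3 p hp7 hodd)
    rw [map_sub, map_natCast, map_ofNat] at this
    linear_combination this
  have hs : ∀ n, 0 < n → n < p →
      ∑ k ∈ Ico 1 (n + 1), (-1) ^ n * (f (sZ p k) * ((2 * p - 2 * k).choose (n - k) : R))
        = -2 * (f (cZ p n) ^ 3 + conv (fun i => (eps p i : R)) (fun j => f (cZ p j) ^ 3) n) := by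
    intro n h0 h1
    have := congrArg f (sZ_coeff p h0 h1)
    simpa only [map_sum, conv, map_mul, map_pow, map_neg, map_one, map_natCast, map_add, map_intCast,
      map_ofNat] using this
  have hK : ∑ k ∈ Ico 1 p, (-1) ^ p * (f (sZ p k) * ((2 * p - 2 * k).choose (p - k) : R))
        + 2 * conv (fun i => (eps p i : R)) (fun j => f (cZ p j) ^ 3) p = - f (KZ p) := by
    rw [KZ, map_neg, neg_neg]
    simp only [map_sum, conv, map_mul, map_pow, map_neg, map_one, map_natCast, map_add, map_intCast,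
      map_ofNat]
  have hKc : f (KZ p) = p * f (HZ p 4) := by
    have := (hf _).mpr (KZ_congr p hp7 hodd)
    rw [map_sub, map_mul, map_natCast] at this
    linear_combination this
  have hpK : (p : R) * f (KZ p) = 0 := by
    obtain ⟨e, he⟩ := dvd_HZ4 p hp7
    rw [hKc, he, map_mul, map_natCast]
    linear_combination (f e) * hp3
  have hm' : (m : R) * f (cZ p m) = 1 := hc m (by omega) (by omega)
  have h1' : (1 - t) ^ 2 = -((m : R) * t) := by
    linear_combination t * ht2 - ht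
  have h2' : (1 - t ^ p) ^ 2 = -((m : R) * t ^ p) := by
    have e1 := trace_pow hm ht ht2 p
    rw [VV_unit m hm (prime_mod hp.out hp7)] at e1
    have e2 : t ^ p * ti ^ p = 1 := by rw [← mul_pow, ht, one_pow]
    push_cast at e1
    linear_combination t ^ p * e1 - e2
  have key := partI hp7 hodd hp3 hc H2 H4 hcent (fun k => f (sZ p k)) hs (f (KZ p)) hpK hK t ti (m : R) (f (cZ p m))
    ht hm' h1' h2'
  have e3 : ∀ s, ∑ j ∈ Ico 1 p, f (cZ p j) ^ s * (t ^ (p - j) + ti ^ (p - j)) = f (sig p m s) := by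
    intro s
    rw [sig, map_sum]
    refine sum_congr rfl ?_
    intro j hj
    rw [mem_Ico] at hj
    rw [trace_al hp.out hp7 hm ht ht2 hj.2, map_mul, map_intCast, map_pow, mul_comm]
  rw [e3, e3] at key
  have e4 : ∑ k ∈ Ico 1 p, f (sZ p k) * f (cZ p m) ^ k = f (SZ p m) := by
    rw [SZ, map_sum]
    simp
  rw [e4, hKc] at key
  rw [← hf]
  simp only [map_sub, map_add, map_mul, map_pow, map_natCast, map_ofNat]
  linear_combination key

/-- the data of the four cases: `(m, den, alpha, beta)` -/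
lemma main5 (hp7 : 7 ≤ p) {m : ℕ} (hm : m = 1 ∨ m = 2 ∨ m = 3 ∨ m = 4) (den a b : ℤ)
    (hval : ∀ (A : Type) [CommRing A] (c : ℕ → A), (p : A) ^ 5 = 0 →
      (∀ k, 0 < k → k < p → (k : A) * c k = 1) →
      (den : A) * (2 * m * (p ^ 2 * ∑ j ∈ Ico 1 p, (UU m (al p j) : A) * c j ^ 3)
      - 20 * (p ^ 4 * ∑ j ∈ Ico 1 p, (UU m (al p j) : A) * c j ^ 5)
      + m * (p ^ 3 * ∑ j ∈ Ico 1 p, c j ^ 4))
      = a * (∑ j ∈ Ico 1 p, c j) + b * (p ^ 3 * ∑ j ∈ Ico 1 p, c j ^ 4)) :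
    ∃ W B : ℤ_[p], HZ p 1 = p ^ 2 * W ∧ phi p B = (bernoulli (p - 5) : ℚ_[p]) ∧
      (p : ℤ_[p]) ^ 3 ∣ 5 * den * (m : ℤ_[p]) ^ 2 * SZ p m - (5 * a * W + 4 * b * p ^ 2 * B) := by
  obtain ⟨B, hB1, hB2⟩ := B1 p hp7
  have hB3 := B2 p hp7
  have h3 := main3 p hp7 hm
  -- transfer to ZMod (p^5)
  have hker : ∀ x : ℤ_[p], PadicInt.toZModPow 5 x = 0 ↔ (p : ℤ_[p]) ^ 5 ∣ x := by
    intro x
    rw [← RingHom.mem_ker, PadicInt.ker_toZModPow, Ideal.mem_span_singleton]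
  set f : ℤ_[p] →+* ZMod (p ^ 5) := PadicInt.toZModPow 5 with hf
  have hp5 : (p : ZMod (p ^ 5)) ^ 5 = 0 := by
    have : f ((p : ℤ_[p]) ^ 5) = 0 := (hker _).mpr dvd_rfl
    rw [map_pow, map_natCast] at this
    exact this
  have hc : ∀ k, 0 < k → k < p → (k : ZMod (p ^ 5)) * f (cZ p k) = 1 := by
    intro k h0 h1
    have := congrArg f (natCast_mul_cZ p h0 h1)
    rw [map_mul, map_natCast, map_one] at this
    exact this
  have hv := hval (ZMod (p ^ 5)) (fun k => f (cZ p k)) hp5 hc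
  have hE1 := E1 hp.out hp7 hp5 hc
  have hE2 := E2 hp.out hp7 hp5 hc
  have key : (p : ℤ_[p]) ^ 5 ∣ (den : ℤ_[p]) * (2 * m * (p ^ 2 * sig p m 3)
      - 20 * (p ^ 4 * sig p m 5) + m * (p ^ 3 * HZ p 4)) - (a * HZ p 1 + b * (p ^ 3 * HZ p 4)) := by
    rw [← hker]
    simp only [sig, HZ, map_sub, map_add, map_mul, map_pow, map_natCast, map_ofNat, map_intCast, map_sum, pow_one]
    linear_combination hv
  have k1 : (p : ℤ_[p]) ^ 5 ∣ 2 * HZ p 1 + p * HZ p 2 + p ^ 2 * HZ p 3 + p ^ 3 * HZ p 4 := by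
    rw [← hker]
    simp only [HZ, map_add, map_mul, map_pow, map_natCast, map_ofNat, map_sum, pow_one]
    linear_combination hE1
  have hW : ∃ W, HZ p 1 = p ^ 2 * W := by
    obtain ⟨e, he⟩ := k1
    obtain ⟨g, hg⟩ := dvd_HZ2 p hp7
    have h2 : IsUnit (2 : ℤ_[p]) := by
      have := isUnit_small p hp7 (n := 2) (by omega)
      simpa using this
    have : (p : ℤ_[p]) ^ 2 ∣ 2 * HZ p 1 := by
      refine ⟨p ^ 3 * e - g - HZ p 3 - p * HZ p 4, ?_⟩
      rw [hg] at he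
      linear_combination he
    exact (h2.dvd_mul_left).mp this
  obtain ⟨W, hW⟩ := hW
  refine ⟨W, B, hW, hB1, ?_⟩
  -- 5 H4 = 4 p B mod p^2
  have hHB : (p : ℤ_[p]) ^ 2 ∣ 5 * HZ p 4 - 4 * (p * B) := by
    obtain ⟨x, hx⟩ := hB2
    obtain ⟨y, hy⟩ := hB3
    refine ⟨y + 4 * x, ?_⟩
    linear_combination hy + 4 * hx
  obtain ⟨x, hx⟩ := hHB
  obtain ⟨y, hy⟩ := key
  obtain ⟨z, hz⟩ := h3
  have hfin : (p : ℤ_[p]) ^ 2 * (5 * den * (m : ℤ_[p]) ^ 2 * SZ p m - (5 * a * W + 4 * b * p ^ 2 * B))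
      = p ^ 2 * (p ^ 3 * (5 * den * z + 5 * y + b * x)) := by
    linear_combination 5 * den * p ^ 2 * hz + 5 * hy + b * p ^ 3 * hx + 5 * a * hW
  have := mul_left_cancel₀ (pow_ne_zero 2 (p_ne_zero p)) hfin
  exact ⟨_, this⟩

end

end Pool.Agent.H13.CB
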