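import Pool.Agent.H13.CB.Ring3

/-! The main reduction: a central binomial sum mod p^3 in terms of single sums. -/

namespace Pool.Agent.H13.CB

open Finset

variable {R : Type*} [CommRing R]

/-- expansion of one term of `P` -/
lemma term_expand {p k : ℕ} (hk0 : 0 < k) (hk : k < p) (t : R) :
    (-t) ^ k * (1 - t) ^ (2 * p - 2 * k)
      = ∑ n ∈ Ico k p, (-1) ^ n * ((2 * p - 2 * k).choose (n - k) : R) * (t ^ n + t ^ (2 * p - n))
        + (-1) ^ p * ((2 * p - 2 * k).choose (p - k) : R) * t ^ p := by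
  obtain ⟨M, rfl⟩ : ∃ M, p = k + M := ⟨p - k, by omega⟩
  have e1 : 2 * (k + M) - 2 * k = 2 * M := by omega
  have e2 : k + M - k = M := by omega
  rw [e1, e2, expand_sq, mul_add, mul_sum, sum_Ico_eq_sum_range, e2]
  congr 1
  · refine sum_congr rfl ?_
    intro i hi
    rw [mem_range] at hi
    have e3 : k + i - k = i := by omega
    rw [e3, neg_pow]
    have e4 : t ^ (2 * (k + M) - (k + i)) = t ^ k * t ^ (2 * M - i) := by
      rw [← pow_add]; congr 1; omega
    rw [e4, pow_add, pow_add]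
    ring
  · rw [neg_pow, pow_add, pow_add]
    ring

lemma swap_sum (p : ℕ) (f : ℕ → ℕ → R) :
    ∑ k ∈ Ico 1 p, ∑ n ∈ Ico k p, f k n = ∑ n ∈ Ico 1 p, ∑ k ∈ Ico 1 (n + 1), f k n := by
  rw [sum_sigma', sum_sigma']
  refine sum_nbij' (fun x => ⟨x.2, x.1⟩) (fun x => ⟨x.2, x.1⟩) ?_ ?_ ?_ ?_ ?_
  · rintro ⟨i, j⟩ h
    simp only [mem_sigma, mem_Ico] at h ⊢
    omega
  · rintro ⟨i, j⟩ h
    simp only [mem_sigma, mem_Ico] at h ⊢
    omega
  · rintro ⟨i, j⟩ h
    rfl
  · rintro ⟨i, j⟩ h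
    rfl
  · rintro ⟨i, j⟩ h
    rfl

lemma P_expand (p : ℕ) (s : ℕ → R) (t : R) :
    ∑ k ∈ Ico 1 p, s k * ((-t) ^ k * (1 - t) ^ (2 * p - 2 * k))
      = ∑ n ∈ Ico 1 p, (∑ k ∈ Ico 1 (n + 1), (-1) ^ n * (s k * ((2 * p - 2 * k).choose (n - k) : R)))
          * (t ^ n + t ^ (2 * p - n))
        + (∑ k ∈ Ico 1 p, (-1) ^ p * (s k * ((2 * p - 2 * k).choose (p - k) : R))) * t ^ p := by
  have h1 : ∀ k ∈ Ico 1 p, s k * ((-t) ^ k * (1 - t) ^ (2 * p - 2 * k))
      = ∑ n ∈ Ico k p, (-1) ^ n * (s k * ((2 * p - 2 * k).choose (n - k) : R)) * (t ^ n + t ^ (2 * p - n))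
        + (-1) ^ p * (s k * ((2 * p - 2 * k).choose (p - k) : R)) * t ^ p := by
    intro k hk
    rw [mem_Ico] at hk
    rw [term_expand (by omega) hk.2, mul_add, mul_sum]
    congr 1
    · refine sum_congr rfl ?_
      intro n _
      ring
    · ring
  rw [sum_congr rfl h1, sum_add_distrib, swap_sum, sum_mul]
  congr 1
  refine sum_congr rfl ?_
  intro n _
  rw [sum_mul]

lemma T_expand {p : ℕ} (hp7 : 7 ≤ p) (hodd : Odd p) (hcent : ((2 * p).choose p : R) = 2) (t : R) :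
    (1 - t) ^ (2 * p) = 1 + ∑ i ∈ Ico 1 p, (eps p i : R) * t ^ i - 2 * t ^ p
      + t ^ p * ∑ i ∈ Ico 1 p, (eps p (p - i) : R) * t ^ i + (t ^ p) ^ 2 := by
  rw [expand_sq, hcent, hodd.neg_one_pow]
  have h0 : ∑ i ∈ range p, (-1) ^ i * ((2 * p).choose i : R) * (t ^ i + t ^ (2 * p - i))
      = (1 + (t ^ p) ^ 2) + ∑ i ∈ Ico 1 p, (-1) ^ i * ((2 * p).choose i : R) * (t ^ i + t ^ (2 * p - i)) := by
    rw [range_eq_Ico, sum_eq_sum_Ico_succ_bot (by omega)]
    congr 1
    simp only [pow_zero, Nat.choose_zero_right, Nat.cast_one, mul_one, one_mul, Nat.sub_zero]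
    rw [← pow_mul, mul_comm p 2]
  have h1 : ∑ i ∈ Ico 1 p, (-1) ^ i * ((2 * p).choose i : R) * (t ^ i + t ^ (2 * p - i))
      = ∑ i ∈ Ico 1 p, (eps p i : R) * t ^ i + t ^ p * ∑ i ∈ Ico 1 p, (eps p (p - i) : R) * t ^ i := by
    rw [← refl_sum p (fun i => (eps p (p - i) : R) * t ^ i), mul_sum, ← sum_add_distrib]
    refine sum_congr rfl ?_
    intro i hi
    rw [mem_Ico] at hi
    rw [show p - (p - i) = i by omega]
    have : t ^ (2 * p - i) = t ^ p * t ^ (p - i) := by rw [← pow_add]; congr 1; omega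
    rw [this]
    unfold eps
    push_cast
    ring
  rw [h0, h1]
  ring

/-- Main reduction. -/
theorem partI {p : ℕ} (hp7 : 7 ≤ p) (hodd : Odd p) (hp3 : (p : R) ^ 3 = 0) {c : ℕ → R}
    (hc : ∀ k, 0 < k → k < p → (k : R) * c k = 1)
    (H2 : (p : R) ^ 2 * ∑ k ∈ Ico 1 p, c k ^ 2 = 0)
    (H4 : (p : R) ^ 2 * ∑ k ∈ Ico 1 p, c k ^ 4 = 0)
    (hcent : ((2 * p).choose p : R) = 2)
    (s : ℕ → R)
    (hs : ∀ n, 0 < n → n < p →
      ∑ k ∈ Ico 1 (n + 1), (-1) ^ n * (s k * ((2 * p - 2 * k).choose (n - k) : R))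
        = -2 * (c n ^ 3 + conv (fun i => (eps p i : R)) (fun j => c j ^ 3) n))
    (K : R) (hpK : (p : R) * K = 0)
    (hK : ∑ k ∈ Ico 1 p, (-1) ^ p * (s k * ((2 * p - 2 * k).choose (p - k) : R))
        + 2 * conv (fun i => (eps p i : R)) (fun j => c j ^ 3) p = - K)
    (t ti m mi : R) (ht : t * ti = 1) (hm : m * mi = 1)
    (h1 : (1 - t) ^ 2 = - (m * t)) (h2 : (1 - t ^ p) ^ 2 = -(m * t ^ p)) :
    m ^ 2 * ∑ k ∈ Ico 1 p, s k * mi ^ k
      = 2 * m * (∑ j ∈ Ico 1 p, c j ^ 3 * (t ^ (p - j) + ti ^ (p - j)))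
        - 20 * p ^ 2 * (∑ j ∈ Ico 1 p, c j ^ 5 * (t ^ (p - j) + ti ^ (p - j))) + m * K := by
  set P : R := ∑ k ∈ Ico 1 p, s k * ((-t) ^ k * (1 - t) ^ (2 * p - 2 * k)) with hPdef
  set T : R := (1 - t) ^ (2 * p) with hTdef
  set S : R := ∑ k ∈ Ico 1 p, s k * mi ^ k with hSdef
  set L : ℕ → R := fun a => ∑ k ∈ Ico 1 p, c k ^ a * t ^ k with hL
  set w : R := t ^ p with hw
  set wi : R := ti ^ p with hwi
  have hww : w * wi = 1 := by rw [hw, hwi, ← mul_pow, ht, one_pow]
  set τ : R := ∑ i ∈ Ico 1 p, (eps p i : R) * t ^ i with hτ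
  -- T in terms of m
  have hT1 : T = - (m ^ p * w) := by
    rw [hTdef, pow_mul, h1, hodd.neg_pow, mul_pow]
  have hP1 : P = T * S := by
    rw [hPdef, hSdef, mul_sum]
    refine sum_congr rfl ?_
    intro k hk
    rw [mem_Ico] at hk
    have e1 : (1 - t) ^ (2 * p - 2 * k) = (-(m * t)) ^ (p - k) := by
      rw [show 2 * p - 2 * k = 2 * (p - k) by omega, pow_mul, h1]
    have e2 : T = (-(m * t)) ^ (p - k) * (-(m * t)) ^ k := by
      rw [hTdef, pow_mul, h1, ← pow_add]; congr 1; omega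
    rw [e1, e2]
    have e3 : (-(m * t)) ^ k * mi ^ k = (-t) ^ k := by
      rw [← mul_pow]; congr 1; linear_combination (-t) * hm
    calc s k * ((-t) ^ k * (-(m * t)) ^ (p - k)) = s k * (((-(m * t)) ^ k * mi ^ k) * (-(m * t)) ^ (p - k)) := by rw [e3]
      _ = _ := by ring
  -- the reversed sums
  have hL3b : ∑ i ∈ Ico 1 p, c (p - i) ^ 3 * t ^ i = -(L 3 + 3 * p * L 4 + 6 * p ^ 2 * L 5) := by
    simp only [hL, mul_sum, ← sum_add_distrib, ← sum_neg_distrib]
    refine sum_congr rfl ?_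
    intro i hi
    rw [mem_Ico] at hi
    rw [refl_c hp3 hc (by omega) (by omega)]
    set y := c i
    linear_combination (-t ^ i * (7 * y ^ 6 + 6 * y ^ 7 * p + 3 * y ^ 8 * p ^ 2 + y ^ 9 * p ^ 3)) * hp3
  have hτb : ∑ i ∈ Ico 1 p, (eps p (p - i) : R) * t ^ i = - τ - 2 * p ^ 2 * L 2 := by
    simp only [hL, hτ, mul_sum, ← sum_neg_distrib, ← sum_sub_distrib]
    refine sum_congr rfl ?_
    intro i hi
    rw [mem_Ico] at hi
    rw [eps_refl hp7 hp3 hc (by omega) (by omega)]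
    ring
  have hT2 : T = 1 + τ - 2 * w + w * (- τ - 2 * p ^ 2 * L 2) + w ^ 2 := by
    rw [hTdef, T_expand hp7 hodd hcent, hτb]
  set A : R := ∑ n ∈ Ico 1 p, conv (fun i => (eps p i : R)) (fun j => c j ^ 3) n * t ^ n with hA
  set B : R := ∑ n ∈ Ico 1 p, conv (fun i => (eps p i : R)) (fun j => c j ^ 3) n * t ^ (2 * p - n) with hB
  set κ : R := conv (fun i => (eps p i : R)) (fun j => c j ^ 3) p with hκ
  set N23 : R := ∑ n ∈ Ico 1 p, conv (fun i => c i ^ 2) (fun j => c j ^ 3) n * t ^ (2 * p - n) with hN23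
  set N14 : R := ∑ n ∈ Ico 1 p, conv (fun i => c i) (fun j => c j ^ 4) n * t ^ (2 * p - n) with hN14
  -- (a)
  have ha : τ * L 3 = A + κ * w + (B + 2 * p ^ 2 * N23 - 6 * p ^ 2 * N14) := by
    rw [hτ, hL]
    simp only
    rw [split p (fun i => (eps p i : R)) (fun j => c j ^ 3) t]
    congr 1
    rw [hB, hN23, hN14]
    simp only [mul_sum, ← sum_add_distrib, ← sum_sub_distrib]
    refine sum_congr rfl ?_
    intro n hn
    rw [mem_Ico] at hn
    have e : conv (fun i => (eps p (p - i) : R)) (fun j => c (p - j) ^ 3) n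
        = conv (fun i => (eps p i : R)) (fun j => c j ^ 3) n
          + 2 * p ^ 2 * conv (fun i => c i ^ 2) (fun j => c j ^ 3) n
          - 6 * p ^ 2 * conv (fun i => c i) (fun j => c j ^ 4) n := by
      simp only [conv, mul_sum, ← sum_add_distrib, ← sum_sub_distrib]
      refine sum_congr rfl ?_
      intro i hi
      rw [mem_Ico] at hi
      have f1 := eps_refl hp7 hp3 hc (show 0 < i by omega) (show i < p by omega)
      have f2 := refl_c hp3 hc (show 0 < n - i by omega) (show n - i < p by omega)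
      have f3 := p_eps hp3 hc (show 0 < i by omega) (show i < p by omega)
      rw [f1, f2]
      set y := c (n - i)
      set x := c i
      set e := (eps p i : R)
      linear_combination (3 * y ^ 4 + 6 * p * y ^ 5) * f3
        + (2 * x ^ 2 * (3 * y ^ 4 + 6 * p * y ^ 5) - 12 * x * y ^ 5
          + (e + 2 * p ^ 2 * x ^ 2) * (7 * y ^ 6 + 6 * y ^ 7 * p + 3 * y ^ 8 * p ^ 2 + y ^ 9 * p ^ 3)) * hp3
    rw [e]
    ring
  -- (b)
  set b' : R := ∑ k ∈ Ico 1 p, (-1) ^ p * (s k * ((2 * p - 2 * k).choose (p - k) : R)) with hb'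
  have hb : P = -2 * (L 3 + w * (-(L 3 + 3 * p * L 4 + 6 * p ^ 2 * L 5)) + A + B) + b' * w := by
    rw [hPdef, P_expand]
    have e1 : ∑ n ∈ Ico 1 p, (∑ k ∈ Ico 1 (n + 1), (-1) ^ n * (s k * ((2 * p - 2 * k).choose (n - k) : R)))
          * (t ^ n + t ^ (2 * p - n))
        = ∑ n ∈ Ico 1 p, (-2 * (c n ^ 3 + conv (fun i => (eps p i : R)) (fun j => c j ^ 3) n))
          * (t ^ n + t ^ (2 * p - n)) := by
      refine sum_congr rfl ?_
      intro n hn
      rw [mem_Ico] at hn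
      rw [hs n (by omega) hn.2]
    rw [e1, ← hL3b]
    congr 1
    have e2 : w * ∑ i ∈ Ico 1 p, c (p - i) ^ 3 * t ^ i = ∑ n ∈ Ico 1 p, c n ^ 3 * t ^ (2 * p - n) := by
      rw [← refl_sum p (fun n => c n ^ 3 * t ^ (2 * p - n)), mul_sum]
      refine sum_congr rfl ?_
      intro n hn
      rw [mem_Ico] at hn
      have : t ^ (2 * p - (p - n)) = w * t ^ n := by rw [hw, ← pow_add]; congr 1; omega
      rw [this]; ring
    rw [e2, hA, hB, hL]
    simp only [mul_sum, ← sum_add_distrib]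
    refine sum_congr rfl ?_
    intro n _
    ring
  -- (d)
  have hsp5 := sum_odd hp7 hp3 hc 5 (by decide)
  have hN23' : (p : R) ^ 2 * N23 = p ^ 2 * w * (∑ n ∈ Ico 1 p, conv (fun i => c i ^ 2) (fun j => c j ^ 3) n * t ^ n + 10 * L 5) := by
    rw [hN23, ← refl_sum p (fun n => conv (fun i => c i ^ 2) (fun j => c j ^ 3) n * t ^ (2 * p - n)), hL]
    simp only [mul_sum, ← sum_add_distrib]
    refine sum_congr rfl ?_
    intro n hn
    rw [mem_Ico] at hn
    have e1 : t ^ (2 * p - (p - n)) = w * t ^ n := by rw [hw, ← pow_add]; congr 1; omega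
    have e2 := conv23_refl hp7 hp3 hc H2 (show 0 < n by omega) hn.2
    rw [e1]
    linear_combination (w * t ^ n) * e2
  have hN14' : (p : R) ^ 2 * N14 = p ^ 2 * w * (∑ n ∈ Ico 1 p, conv (fun i => c i) (fun j => c j ^ 4) n * t ^ n + 5 * L 5) := by
    rw [hN14, ← refl_sum p (fun n => conv (fun i => c i) (fun j => c j ^ 4) n * t ^ (2 * p - n)), hL]
    simp only [mul_sum, ← sum_add_distrib]
    refine sum_congr rfl ?_
    intro n hn
    rw [mem_Ico] at hn
    have e1 : t ^ (2 * p - (p - n)) = w * t ^ n := by rw [hw, ← pow_add]; congr 1; omega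
    have e2 := conv14_refl hp7 hp3 hc H2 H4 (show 0 < n by omega) hn.2
    rw [e1]
    linear_combination (w * t ^ n) * e2
  have hd : (p : R) ^ 2 * (L 2 * L 3) = p ^ 2 * (∑ n ∈ Ico 1 p, conv (fun i => c i ^ 2) (fun j => c j ^ 3) n * t ^ n) - p ^ 2 * N23 := by
    rw [hL]
    simp only
    rw [split p (fun i => c i ^ 2) (fun j => c j ^ 3) t]
    have e0 : (p : R) ^ 2 * conv (fun i => c i ^ 2) (fun j => c j ^ 3) p = 0 := by
      have : (p : R) ^ 2 * conv (fun i => c i ^ 2) (fun j => c j ^ 3) p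
          = - ((p : R) ^ 2 * ∑ k ∈ Ico 1 p, c k ^ 5) := by
        rw [conv, mul_sum, mul_sum, ← sum_neg_distrib]
        refine sum_congr rfl ?_
        intro i hi
        rw [mem_Ico] at hi
        have := refl_c2_pow hp3 hc (show 0 < i by omega) hi.2 3
        linear_combination (c i ^ 2) * this
      rw [this, hsp5, neg_zero]
    have e3 : (p : R) ^ 2 * ∑ n ∈ Ico 1 p, conv (fun i => c (p - i) ^ 2) (fun j => c (p - j) ^ 3) n * t ^ (2 * p - n)
        = - ((p : R) ^ 2 * N23) := by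
      rw [hN23, mul_sum, mul_sum, ← sum_neg_distrib]
      refine sum_congr rfl ?_
      intro n hn
      rw [mem_Ico] at hn
      have : (p : R) ^ 2 * conv (fun i => c (p - i) ^ 2) (fun j => c (p - j) ^ 3) n
          = - ((p : R) ^ 2 * conv (fun i => c i ^ 2) (fun j => c j ^ 3) n) := by
        simp only [conv, mul_sum, ← sum_neg_distrib]
        refine sum_congr rfl ?_
        intro i hi
        rw [mem_Ico] at hi
        have f2 := refl_c2_pow hp3 hc (show 0 < n - i by omega) (show n - i < p by omega) 3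
        have f1 := refl_c2_pow hp3 hc (show 0 < i by omega) (show i < p by omega) 2
        linear_combination (c (p - i) ^ 2) * f2 - (c (n - i) ^ 3) * f1
      linear_combination (t ^ (2 * p - n)) * this
    linear_combination (t ^ p) * e0 + e3
  have he : (p : R) ^ 2 * (L 1 * L 4) = p ^ 2 * (∑ n ∈ Ico 1 p, conv (fun i => c i) (fun j => c j ^ 4) n * t ^ n) - p ^ 2 * N14 := by
    rw [hL]
    simp only [pow_one]
    rw [split p (fun i => c i) (fun j => c j ^ 4) t]
    have e0 : (p : R) ^ 2 * conv (fun i => c i) (fun j => c j ^ 4) p = 0 := by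
      have : (p : R) ^ 2 * conv (fun i => c i) (fun j => c j ^ 4) p
          = ((p : R) ^ 2 * ∑ k ∈ Ico 1 p, c k ^ 5) := by
        rw [conv, mul_sum, mul_sum]
        refine sum_congr rfl ?_
        intro i hi
        rw [mem_Ico] at hi
        have := refl_c2_pow hp3 hc (show 0 < i by omega) hi.2 4
        linear_combination (c i) * this
      rw [this, hsp5]
    have e3 : (p : R) ^ 2 * ∑ n ∈ Ico 1 p, conv (fun i => c (p - i)) (fun j => c (p - j) ^ 4) n * t ^ (2 * p - n)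
        = - ((p : R) ^ 2 * N14) := by
      rw [hN14, mul_sum, mul_sum, ← sum_neg_distrib]
      refine sum_congr rfl ?_
      intro n hn
      rw [mem_Ico] at hn
      have : (p : R) ^ 2 * conv (fun i => c (p - i)) (fun j => c (p - j) ^ 4) n
          = - ((p : R) ^ 2 * conv (fun i => c i) (fun j => c j ^ 4) n) := by
        simp only [conv, mul_sum, ← sum_neg_distrib]
        refine sum_congr rfl ?_
        intro i hi
        rw [mem_Ico] at hi
        have f2 := refl_c2_pow hp3 hc (show 0 < n - i by omega) (show n - i < p by omega) 4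
        have f1 := refl_c2 hp3 hc (show 0 < i by omega) (show i < p by omega)
        linear_combination (c (p - i)) * f2 + (c (n - i) ^ 4) * f1
      linear_combination (t ^ (2 * p - n)) * this
    linear_combination (t ^ p) * e0 + e3
  -- (g)
  have hg : (p : R) * τ = - 2 * p ^ 2 * L 1 := by
    rw [hτ, hL]
    simp only [pow_one, mul_sum]
    refine sum_congr rfl ?_
    intro i hi
    rw [mem_Ico] at hi
    have := p_eps hp3 hc (show 0 < i by omega) hi.2
    linear_combination (t ^ i) * this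
  -- the sums in the conclusion
  have hσ3 : ∑ j ∈ Ico 1 p, c j ^ 3 * (t ^ (p - j) + ti ^ (p - j))
      = wi * L 3 - (L 3 + 3 * p * L 4 + 6 * p ^ 2 * L 5) := by
    have e1 : ∑ j ∈ Ico 1 p, c j ^ 3 * t ^ (p - j) = ∑ i ∈ Ico 1 p, c (p - i) ^ 3 * t ^ i := by
      refine refl_sum' p _ _ ?_
      intro i h0 h1
      rw [show p - (p - i) = i by omega]
    have e2 : ∑ j ∈ Ico 1 p, c j ^ 3 * ti ^ (p - j) = wi * L 3 := by
      rw [hL]
      simp only [mul_sum]
      refine sum_congr rfl ?_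
      intro i hi
      rw [mem_Ico] at hi
      have : ti ^ (p - i) = wi * t ^ i := by
        rw [hwi, show p = (p - i) + i by omega, pow_add]
        rw [show p - i + i - i = p - i by omega, mul_assoc, ← mul_pow, mul_comm ti t, ht, one_pow, mul_one]
      rw [this]; ring
    simp only [mul_add, sum_add_distrib]
    rw [e1, e2, hL3b]
    ring
  have hσ5 : (p : R) ^ 2 * ∑ j ∈ Ico 1 p, c j ^ 5 * (t ^ (p - j) + ti ^ (p - j))
      = (p : R) ^ 2 * (wi * L 5 - L 5) := by
    have e1 : (p : R) ^ 2 * ∑ j ∈ Ico 1 p, c j ^ 5 * t ^ (p - j) = - ((p : R) ^ 2 * L 5) := by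
      have e3 : ∑ j ∈ Ico 1 p, c j ^ 5 * t ^ (p - j) = ∑ i ∈ Ico 1 p, c (p - i) ^ 5 * t ^ i := by
        refine refl_sum' p _ _ ?_
        intro i h0 h1
        rw [show p - (p - i) = i by omega]
      rw [e3, hL]
      simp only [mul_sum, ← sum_neg_distrib]
      refine sum_congr rfl ?_
      intro i hi
      rw [mem_Ico] at hi
      have := refl_c2_pow hp3 hc (show 0 < i by omega) hi.2 5
      linear_combination (t ^ i) * this
    have e2 : ∑ j ∈ Ico 1 p, c j ^ 5 * ti ^ (p - j) = wi * L 5 := by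
      rw [hL]
      simp only [mul_sum]
      refine sum_congr rfl ?_
      intro i hi
      rw [mem_Ico] at hi
      have : ti ^ (p - i) = wi * t ^ i := by
        rw [hwi, show p = (p - i) + i by omega, pow_add]
        rw [show p - i + i - i = p - i by omega, mul_assoc, ← mul_pow, mul_comm ti t, ht, one_pow, mul_one]
      rw [this]; ring
    simp only [mul_add, sum_add_distrib]
    rw [e1, e2]
    ring
  -- algebra
  set l1 := L 1
  set l2 := L 2
  set l3 := L 3
  set l4 := L 4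
  set l5 := L 5
  set C23 := ∑ n ∈ Ico 1 p, conv (fun i => c i ^ 2) (fun j => c j ^ 3) n * t ^ n
  set C14 := ∑ n ∈ Ico 1 p, conv (fun i => c i) (fun j => c j ^ 4) n * t ^ n
  set q : R := (p : R) with hq
  have hd' : (1 - w) * (q ^ 2 * N23) = q ^ 2 * w * (l2 * l3 + 10 * l5) := by
    linear_combination hN23' - w * hd
  have he' : (1 - w) * (q ^ 2 * N14) = q ^ 2 * w * (l1 * l4 + 5 * l5) := by
    linear_combination hN14' - w * he
  have hP2 : P = -2 * l3 * (1 + τ) + 2 * w * (l3 + 3 * q * l4 + 6 * q ^ 2 * l5) + 4 * q ^ 2 * N23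
      - 12 * q ^ 2 * N14 - K * w := by
    linear_combination hb + 2 * ha + w * hK
  have hT3 : T = (1 - w) * (1 + τ) - w * (1 - w) - 2 * q ^ 2 * w * l2 := by
    linear_combination hT2
  have hP3 : (1 - w) * P = -2 * l3 * T + 6 * q * w * (1 - w) * l4 + 12 * q ^ 2 * w * (1 - w) * l5
      - 20 * q ^ 2 * w * l5 - 12 * q ^ 2 * w * (l1 * l4) - K * w * (1 - w) := by
    linear_combination (1 - w) * hP2 + 2 * l3 * hT3 + 4 * hd' - 12 * he'
  have hqT : q * T = q * (1 - w) ^ 2 - 2 * q ^ 2 * l1 * (1 - w) := by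
    linear_combination q * hT3 + (1 - w) * hg - 2 * w * l2 * hp3
  have hq2T : q ^ 2 * T = q ^ 2 * (1 - w) ^ 2 := by
    linear_combination q * hqT - 2 * l1 * (1 - w) * hp3
  have hKT : K * T = K * (1 - w) ^ 2 := by
    -- K is annihilated by p, and T - (1-w)^2 is a multiple of p
    obtain ⟨e, he⟩ : ∃ e, τ = q * e := by
      refine ⟨∑ i ∈ Ico 1 p, (-2 * c i + 4 * p * c i * ∑ k ∈ Ico 1 i, c k) * t ^ i, ?_⟩
      rw [hτ, mul_sum]
      refine sum_congr rfl ?_
      intro i hi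
      rw [mem_Ico] at hi
      rw [eps_formula hp3 hc (show 0 < i by omega) hi.2]
      ring
    rw [hT3, he]
    linear_combination ((1 - w) * e - 2 * q * w * l2) * hpK
  have hfin : (1 - w) ^ 3 * P = T * (-2 * (1 - w) ^ 2 * l3 + 6 * q * w * (1 - w) * l4
      + w * (12 * q ^ 2 * (1 - w) * l5 - 20 * q ^ 2 * l5 - K * (1 - w))) := by
    linear_combination (1 - w) ^ 2 * hP3 - 6 * w * (1 - w) * l4 * hqT
      - (12 * w * (1 - w) * l5 - 20 * w * l5) * hq2T + w * (1 - w) * hKT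
  -- cancel T
  have hTu : T * (-(mi ^ p * wi)) = 1 := by
    rw [hT1]
    have : m ^ p * mi ^ p = 1 := by rw [← mul_pow, hm, one_pow]
    linear_combination (w * wi) * this + hww
  have hfin2 : (1 - w) ^ 3 * S = (-2 * (1 - w) ^ 2 * l3 + 6 * q * w * (1 - w) * l4
      + w * (12 * q ^ 2 * (1 - w) * l5 - 20 * q ^ 2 * l5 - K * (1 - w))) := by
    rw [hP1] at hfin
    linear_combination (-(mi ^ p * wi)) * hfin
      - ((1 - w) ^ 3 * S - (-2 * (1 - w) ^ 2 * l3 + 6 * q * w * (1 - w) * l4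
      + w * (12 * q ^ 2 * (1 - w) * l5 - 20 * q ^ 2 * l5 - K * (1 - w)))) * hTu
  have hgoal : m ^ 2 * S = 2 * m * (wi * l3 - (l3 + 3 * q * l4 + 6 * q ^ 2 * l5))
      - 20 * (q ^ 2 * (wi * l5 - l5)) + m * K := by
    have hw2 : (1 - w) ^ 2 = -(m * w) := h2
    -- (1-w)^4 = m^2 w^2
    have e4 : m ^ 2 * w ^ 2 * S = (1 - w) * ((1 - w) ^ 3 * S) := by
      have : (1 - w) ^ 4 = m ^ 2 * w ^ 2 := by
        calc (1 - w) ^ 4 = ((1 - w) ^ 2) ^ 2 := by ring
          _ = _ := by rw [hw2]; ring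
      linear_combination (-S) * this
    have e5 : m ^ 2 * S = wi ^ 2 * (m ^ 2 * w ^ 2 * S) := by
      linear_combination (-m ^ 2 * S * (w * wi + 1)) * hww
    rw [e5, e4, hfin2]
    linear_combination (wi ^ 2 * (-2 * (1 - w) * l3 + 6 * q * w * l4 + 12 * q ^ 2 * w * l5 - K * w)) * hw2
      + ((2 * m * l3 - 20 * q ^ 2 * l5) * (wi - (w * wi + 1))
        + (-6 * q * m * l4 - 12 * q ^ 2 * m * l5 + K * m) * (w * wi + 1)) * hww
  rw [hσ3]
  linear_combination hgoal + 20 * hσ5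

end Pool.Agent.H13.CB
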