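import Pool.Agent.H13.CB.Const

/-! Relations between class sums in a ring with p^5 = 0. -/

namespace Pool.Agent.H13.CB

open Finset

/-- the class of `j`: the unique `a < 12` with `12 ∣ j + p a`. -/
def al (p j : ℕ) : ℕ := (11 * p * j) % 12

lemma al_lt (p j : ℕ) : al p j < 12 := Nat.mod_lt _ (by norm_num)

lemma p_sq_mod {p : ℕ} (hp : p.Prime) (hp7 : 7 ≤ p) : (p * p) % 12 = 1 := by
  have h2 : p % 2 = 1 := by
    rcases hp.eq_two_or_odd with h | h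
    · omega
    · exact h
  have h3 : p % 3 ≠ 0 := by
    intro h
    have h4 : 3 ∣ p := Nat.dvd_of_mod_eq_zero h
    rcases (Nat.dvd_prime hp).mp h4 with h5 | h5 <;> omega
  have h12 : p % 12 = 1 ∨ p % 12 = 5 ∨ p % 12 = 7 ∨ p % 12 = 11 := by omega
  rcases h12 with h | h | h | h <;> rw [Nat.mul_mod, h]

lemma al_refl {p : ℕ} (hp : p.Prime) (hp7 : 7 ≤ p) {j : ℕ} (hj : j < p) :
    al p (p - j) = 11 - al p j := by
  have h := p_sq_mod hp hp7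
  unfold al
  have e : 11 * p * (p - j) + 11 * p * j = 11 * (p * p) := by
    rw [← mul_add, Nat.sub_add_cancel hj.le]; ring
  generalize 11 * p * (p - j) = x at *
  generalize 11 * p * j = y at *
  generalize p * p = z at *
  omega

lemma al_class {p : ℕ} (hp : p.Prime) (hp7 : 7 ≤ p) {d k j a : ℕ} (hd : d = 2 ∨ d = 3 ∨ d = 4 ∨ d = 6)
    (hk : k < p) (h : d * k = j + p * a) : al p j % d = a := by
  have h1 := p_sq_mod hp hp7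
  have had : a < d := by
    by_contra hcon
    have h2 : p * d ≤ p * a := Nat.mul_le_mul_left _ (by omega)
    have h3 : d * k < d * p := Nat.mul_lt_mul_of_pos_left hk (by omega)
    rw [Nat.mul_comm p d] at h2
    omega
  have h2 : d ∣ 12 := by
    rcases hd with h | h | h | h <;> subst h <;> decide
  unfold al
  rw [Nat.mod_mod_of_dvd _ h2]
  -- 11 p j + 11 p p a = 11 p d k
  have e : 11 * p * j + 11 * (p * p) * a = 11 * p * k * d := by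
    have : 11 * p * (j + p * a) = 11 * p * (d * k) := by rw [h]
    linarith
  obtain ⟨q, hq⟩ : ∃ q, p * p = 12 * q + 1 := ⟨p * p / 12, by omega⟩
  rw [hq] at e
  generalize 11 * p * j = x at *
  generalize 11 * p * k = y at *
  rcases hd with h | h | h | h <;> subst h
  all_goals
    have e2 : 11 * (12 * q + 1) * a = 132 * (q * a) + 11 * a := by ring
    rw [e2] at e
    generalize q * a = z at *
    omega

variable {A : Type*} [CommRing A]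

/-- class sums -/
def NN (p : ℕ) (c : ℕ → A) (s a : ℕ) : A := ∑ j ∈ Ico 1 p, if al p j = a then c j ^ s else 0

lemma class_sum (p : ℕ) (c : ℕ → A) (s : ℕ) (g : ℕ → A) :
    ∑ j ∈ Ico 1 p, g (al p j) * c j ^ s = ∑ a ∈ range 12, g a * NN p c s a := by
  simp only [NN, mul_sum]
  rw [sum_comm]
  refine sum_congr rfl ?_
  intro j _
  rw [sum_eq_single (al p j)]
  · simp
  · intro b _ hb
    rw [if_neg (Ne.symm hb), mul_zero]
  · intro h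
    exact absurd (mem_range.mpr (al_lt p j)) h

lemma class_total (p : ℕ) (c : ℕ → A) (s : ℕ) :
    ∑ j ∈ Ico 1 p, c j ^ s = ∑ a ∈ range 12, NN p c s a := by
  have := class_sum p c s (fun _ => 1)
  simpa using this

section five

variable {p : ℕ} {c : ℕ → A}

lemma refl5 (hp5 : (p : A) ^ 5 = 0) (hc : ∀ k, 0 < k → k < p → (k : A) * c k = 1)
    {k : ℕ} (h0 : 0 < k) (h1 : k < p) :
    c (p - k) = -(c k + p * c k ^ 2 + p ^ 2 * c k ^ 3 + p ^ 3 * c k ^ 4 + p ^ 4 * c k ^ 5) := by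
  have h2 := hc k h0 h1
  have h3 := hc (p - k) (by omega) (by omega)
  rw [Nat.cast_sub h1.le] at h3
  set x := c (p - k)
  set y := c k
  have h4 : x = -y + p * y * x := by
    linear_combination (-x) * h2 + (-y) * h3
  linear_combination (1 + p * y + p ^ 2 * y ^ 2 + p ^ 3 * y ^ 3 + p ^ 4 * y ^ 4) * h4 + (y ^ 5 * x) * hp5

lemma NN_refl (hp : p.Prime) (hp7 : 7 ≤ p) (s a : ℕ) (ha : a < 12) :
    NN p c s (11 - a) = ∑ j ∈ Ico 1 p, if al p j = a then c (p - j) ^ s else 0 := by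
  unfold NN
  rw [← refl_sum p (fun j => if al p j = 11 - a then c j ^ s else 0)]
  refine sum_congr rfl ?_
  intro j hj
  rw [mem_Ico] at hj
  have h := al_refl hp hp7 hj.2
  have h2 := al_lt p j
  rw [h]
  by_cases h3 : al p j = a
  · rw [if_pos h3, if_pos (by omega)]
  · rw [if_neg h3, if_neg (by omega)]

lemma R13 (hp : p.Prime) (hp7 : 7 ≤ p) (hp5 : (p : A) ^ 5 = 0)
    (hc : ∀ k, 0 < k → k < p → (k : A) * c k = 1) (a : ℕ) (ha : a < 12) :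
    (p : A) ^ 2 * NN p c 3 (11 - a)
      = - ((p : A) ^ 2 * NN p c 3 a + 3 * p ^ 3 * NN p c 4 a + 6 * p ^ 4 * NN p c 5 a) := by
  rw [NN_refl hp hp7 3 a ha]
  unfold NN
  simp only [mul_sum, ← sum_add_distrib, ← sum_neg_distrib]
  refine sum_congr rfl ?_
  intro j hj
  rw [mem_Ico] at hj
  by_cases h : al p j = a
  · simp only [if_pos h]
    rw [refl5 hp5 hc (by omega) hj.2]
    set y := c j
    linear_combination (-(10 * y ^ 6 + 15 * y ^ 7 * p + 18 * y ^ 8 * p ^ 2 + 19 * y ^ 9 * p ^ 3 + 18 * y ^ 10 * p ^ 4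
      + 15 * y ^ 11 * p ^ 5 + 10 * y ^ 12 * p ^ 6 + 6 * y ^ 13 * p ^ 7 + 3 * y ^ 14 * p ^ 8 + y ^ 15 * p ^ 9)) * hp5
  · simp only [if_neg h]
    ring

lemma R14 (hp : p.Prime) (hp7 : 7 ≤ p) (hp5 : (p : A) ^ 5 = 0)
    (hc : ∀ k, 0 < k → k < p → (k : A) * c k = 1) (a : ℕ) (ha : a < 12) :
    (p : A) ^ 3 * NN p c 4 (11 - a) = (p : A) ^ 3 * NN p c 4 a + 4 * p ^ 4 * NN p c 5 a := by
  rw [NN_refl hp hp7 4 a ha]
  unfold NN
  simp only [mul_sum, ← sum_add_distrib]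
  refine sum_congr rfl ?_
  intro j hj
  rw [mem_Ico] at hj
  by_cases h : al p j = a
  · simp only [if_pos h]
    rw [refl5 hp5 hc (by omega) hj.2]
    set y := c j
    have e : ((p : A) ^ 3 * (-(y + p * y ^ 2 + p ^ 2 * y ^ 3 + p ^ 3 * y ^ 4 + p ^ 4 * y ^ 5)) ^ 4)
      = (p : A) ^ 3 * y ^ 4 * (1 + p * y + p ^ 2 * y ^ 2 + p ^ 3 * y ^ 3 + p ^ 4 * y ^ 4) ^ 4 := by ring
    rw [e]
    have e2 : ∃ r : A, (1 + p * y + p ^ 2 * y ^ 2 + p ^ 3 * y ^ 3 + p ^ 4 * y ^ 4) ^ 4 = 1 + 4 * p * y + p ^ 2 * r := by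
      refine ⟨y ^ 2 * (4 * (1 + p * y + p ^ 2 * y ^ 2) + 6 * (1 + p * y + p ^ 2 * y ^ 2 + p ^ 3 * y ^ 3) ^ 2
        + 4 * (p * y) * (1 + p * y + p ^ 2 * y ^ 2 + p ^ 3 * y ^ 3) ^ 3
        + (p * y) ^ 2 * (1 + p * y + p ^ 2 * y ^ 2 + p ^ 3 * y ^ 3) ^ 4), ?_⟩
      ring
    obtain ⟨r, hr⟩ := e2
    rw [hr]
    linear_combination (y ^ 4 * r) * hp5
  · simp only [if_neg h]
    ring

lemma R15 (hp : p.Prime) (hp7 : 7 ≤ p) (hp5 : (p : A) ^ 5 = 0)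
    (hc : ∀ k, 0 < k → k < p → (k : A) * c k = 1) (a : ℕ) (ha : a < 12) :
    (p : A) ^ 4 * NN p c 5 (11 - a) = -((p : A) ^ 4 * NN p c 5 a) := by
  rw [NN_refl hp hp7 5 a ha]
  unfold NN
  simp only [mul_sum, ← sum_neg_distrib]
  refine sum_congr rfl ?_
  intro j hj
  rw [mem_Ico] at hj
  by_cases h : al p j = a
  · simp only [if_pos h]
    rw [refl5 hp5 hc (by omega) hj.2]
    set y := c j
    have e2 : ∃ r : A, (-(y + p * y ^ 2 + p ^ 2 * y ^ 3 + p ^ 3 * y ^ 4 + p ^ 4 * y ^ 5)) ^ 5 = - y ^ 5 + p * r := by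
      refine ⟨-(y ^ 5 * (5 * (y * (1 + p * y + p ^ 2 * y ^ 2 + p ^ 3 * y ^ 3))
        + 10 * p * (y * (1 + p * y + p ^ 2 * y ^ 2 + p ^ 3 * y ^ 3)) ^ 2
        + 10 * p ^ 2 * (y * (1 + p * y + p ^ 2 * y ^ 2 + p ^ 3 * y ^ 3)) ^ 3
        + 5 * p ^ 3 * (y * (1 + p * y + p ^ 2 * y ^ 2 + p ^ 3 * y ^ 3)) ^ 4
        + p ^ 4 * (y * (1 + p * y + p ^ 2 * y ^ 2 + p ^ 3 * y ^ 3)) ^ 5)), ?_⟩
      ring
    obtain ⟨r, hr⟩ := e2
    rw [hr]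
    linear_combination r * hp5
  · simp only [if_neg h]
    ring

/-- total sum, order five -/
lemma H5_zero (hp : p.Prime) (hp7 : 7 ≤ p) (hp5 : (p : A) ^ 5 = 0)
    (hc : ∀ k, 0 < k → k < p → (k : A) * c k = 1) :
    (p : A) ^ 4 * ∑ j ∈ Ico 1 p, c j ^ 5 = 0 := by
  have h := fun a ha => R15 (A := A) hp hp7 hp5 hc a ha
  have h2 : (2 : A) * ((p : A) ^ 4 * ∑ j ∈ Ico 1 p, c j ^ 5) = 0 := by
    rw [class_total]
    simp only [sum_range_succ, sum_range_zero]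
    have h0 := h 0 (by norm_num)
    have h1 := h 1 (by norm_num)
    have h2 := h 2 (by norm_num)
    have h3 := h 3 (by norm_num)
    have h4 := h 4 (by norm_num)
    have h5 := h 5 (by norm_num)
    norm_num at h0 h1 h2 h3 h4 h5
    linear_combination 2 * h0 + 2 * h1 + 2 * h2 + 2 * h3 + 2 * h4 + 2 * h5
  have h3 := two_mul_c2 hp7 hc
  linear_combination (c 2) * h2 - ((p : A) ^ 4 * ∑ j ∈ Ico 1 p, c j ^ 5) * h3

lemma E1 (hp : p.Prime) (hp7 : 7 ≤ p) (hp5 : (p : A) ^ 5 = 0)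
    (hc : ∀ k, 0 < k → k < p → (k : A) * c k = 1) :
    2 * (∑ j ∈ Ico 1 p, c j) + p * (∑ j ∈ Ico 1 p, c j ^ 2) + p ^ 2 * (∑ j ∈ Ico 1 p, c j ^ 3)
      + p ^ 3 * (∑ j ∈ Ico 1 p, c j ^ 4) = 0 := by
  have h : ∑ j ∈ Ico 1 p, c (p - j) = ∑ j ∈ Ico 1 p, c j := refl_sum p c
  have h2 : ∑ j ∈ Ico 1 p, c (p - j) = -(∑ j ∈ Ico 1 p, c j + p * (∑ j ∈ Ico 1 p, c j ^ 2)
      + p ^ 2 * (∑ j ∈ Ico 1 p, c j ^ 3)
      + p ^ 3 * (∑ j ∈ Ico 1 p, c j ^ 4) + p ^ 4 * (∑ j ∈ Ico 1 p, c j ^ 5)) := by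
    simp only [mul_sum, ← sum_add_distrib, ← sum_neg_distrib]
    refine sum_congr rfl ?_
    intro j hj
    rw [mem_Ico] at hj
    rw [refl5 hp5 hc (by omega) hj.2]
  have h3 := H5_zero hp hp7 hp5 hc
  linear_combination h2 - h - h3

lemma E2 (hp : p.Prime) (hp7 : 7 ≤ p) (hp5 : (p : A) ^ 5 = 0)
    (hc : ∀ k, 0 < k → k < p → (k : A) * c k = 1) :
    2 * (p ^ 2 * (∑ j ∈ Ico 1 p, c j ^ 3)) + 3 * (p ^ 3 * (∑ j ∈ Ico 1 p, c j ^ 4)) = 0 := by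
  have h : ∑ j ∈ Ico 1 p, (p : A) ^ 2 * c (p - j) ^ 3 = ∑ j ∈ Ico 1 p, (p : A) ^ 2 * c j ^ 3 :=
    refl_sum p (fun j => (p : A) ^ 2 * c j ^ 3)
  have h2 : ∑ j ∈ Ico 1 p, (p : A) ^ 2 * c (p - j) ^ 3 = -(p ^ 2 * (∑ j ∈ Ico 1 p, c j ^ 3)
      + 3 * (p ^ 3 * (∑ j ∈ Ico 1 p, c j ^ 4)) + 6 * (p ^ 4 * (∑ j ∈ Ico 1 p, c j ^ 5))) := by
    simp only [mul_sum, ← sum_add_distrib, ← sum_neg_distrib]
    refine sum_congr rfl ?_
    intro j hj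
    rw [mem_Ico] at hj
    rw [refl5 hp5 hc (by omega) hj.2]
    set y := c j
    linear_combination (-(10 * y ^ 6 + 15 * y ^ 7 * p + 18 * y ^ 8 * p ^ 2 + 19 * y ^ 9 * p ^ 3 + 18 * y ^ 10 * p ^ 4
      + 15 * y ^ 11 * p ^ 5 + 10 * y ^ 12 * p ^ 6 + 6 * y ^ 13 * p ^ 7 + 3 * y ^ 14 * p ^ 8 + y ^ 15 * p ^ 9)) * hp5
  have h3 := H5_zero hp hp7 hp5 hc
  rw [← mul_sum] at h
  rw [← mul_sum] at h
  rw [← mul_sum] at h2
  linear_combination h2 - h - 6 * h3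

end five

section scale

variable {p : ℕ} {c : ℕ → A}

lemma mod_pos (hp : p.Prime) {d k : ℕ} (hd0 : 0 < d) (hd : d < p) (hk0 : 0 < k) (hk : k < p) :
    0 < (d * k) % p := by
  rw [Nat.pos_iff_ne_zero]
  intro h
  have h1 : p ∣ d * k := Nat.dvd_of_mod_eq_zero h
  rcases (Nat.Prime.dvd_mul hp).mp h1 with h2 | h2
  · exact absurd (Nat.le_of_dvd (by omega) h2) (by omega)
  · exact absurd (Nat.le_of_dvd (by omega) h2) (by omega)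

lemma scale5 (hp : p.Prime) (hp7 : 7 ≤ p) (hp5 : (p : A) ^ 5 = 0)
    (hc : ∀ k, 0 < k → k < p → (k : A) * c k = 1) {d : ℕ} (hd : d = 2 ∨ d = 3 ∨ d = 4 ∨ d = 6)
    {k : ℕ} (hk0 : 0 < k) (hk : k < p) :
    c k = d * (c ((d * k) % p) - p * (al p ((d * k) % p) % d : ℕ) * c ((d * k) % p) ^ 2
      + p ^ 2 * (al p ((d * k) % p) % d : ℕ) ^ 2 * c ((d * k) % p) ^ 3
      - p ^ 3 * (al p ((d * k) % p) % d : ℕ) ^ 3 * c ((d * k) % p) ^ 4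
      + p ^ 4 * (al p ((d * k) % p) % d : ℕ) ^ 4 * c ((d * k) % p) ^ 5) := by
  have hdp : d < p := by omega
  have h1 := mod_pos hp (show 0 < d by omega) hdp hk0 hk
  have h2 := c_scale hc hk0 hk h1 (Nat.mod_lt _ hp.pos) (Nat.mod_add_div (d * k) p).symm
  have h3 := al_class hp hp7 hd hk (Nat.mod_add_div (d * k) p).symm
  rw [h3]
  set y := c ((d * k) % p)
  set x := c k
  set a : A := ((d * k / p : ℕ) : A)
  linear_combination (1 - p * a * y + p ^ 2 * a ^ 2 * y ^ 2 - p ^ 3 * a ^ 3 * y ^ 3 + p ^ 4 * a ^ 4 * y ^ 4) * h2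
    - (a ^ 5 * y ^ 5 * x) * hp5

lemma sum_scale [hp : Fact p.Prime] {d : ℕ} (hd0 : 0 < d) (hd : d < p) (f G : ℕ → A)
    (h : ∀ k, 0 < k → k < p → f k = G ((d * k) % p)) :
    ∑ k ∈ Ico 1 p, f k = ∑ j ∈ Ico 1 p, G j := by
  rw [← mulmod_sum p hd0 hd G]
  refine sum_congr rfl ?_
  intro k hk
  rw [mem_Ico] at hk
  exact h k (by omega) hk.2

lemma R2 [hp : Fact p.Prime] (hp7 : 7 ≤ p) (hp5 : (p : A) ^ 5 = 0)
    (hc : ∀ k, 0 < k → k < p → (k : A) * c k = 1) {d : ℕ} (hd : d = 2 ∨ d = 3 ∨ d = 4 ∨ d = 6) :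
    p * (∑ k ∈ Ico 1 p, c k ^ 2) = (d : A) ^ 2 * (p * (∑ k ∈ Ico 1 p, c k ^ 2)
      - 2 * (∑ a ∈ range 12, ((a % d : ℕ) : A) * (p ^ 2 * NN p c 3 a))
      + 3 * (∑ a ∈ range 12, ((a % d : ℕ) : A) ^ 2 * (p ^ 3 * NN p c 4 a))
      - 4 * (∑ a ∈ range 12, ((a % d : ℕ) : A) ^ 3 * (p ^ 4 * NN p c 5 a))) := by
  have h := sum_scale (A := A) (p := p) (d := d) (by omega) (by omega) (fun k => p * c k ^ 2)
    (fun j => (d : A) ^ 2 * (p * c j ^ 2 - 2 * (((al p j % d : ℕ) : A) * p ^ 2 * c j ^ 3)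
      + 3 * (((al p j % d : ℕ) : A) ^ 2 * p ^ 3 * c j ^ 4) - 4 * (((al p j % d : ℕ) : A) ^ 3 * p ^ 4 * c j ^ 5))) ?_
  · refine (mul_sum _ _ _).trans (h.trans ?_)
    rw [← mul_sum]
    congr 1
    have e3 := class_sum p c 3 (fun a => ((a % d : ℕ) : A) * p ^ 2)
    have e4 := class_sum p c 4 (fun a => ((a % d : ℕ) : A) ^ 2 * p ^ 3)
    have e5 := class_sum p c 5 (fun a => ((a % d : ℕ) : A) ^ 3 * p ^ 4)
    rw [sum_sub_distrib, sum_add_distrib, sum_sub_distrib, ← mul_sum, ← mul_sum, ← mul_sum, ← mul_sum,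
      e3, e4, e5]
    simp only [mul_assoc]
  · intro k h0 h1
    have h2 := scale5 hp.out hp7 hp5 hc hd h0 h1
    rw [h2]
    set y := c ((d * k) % p)
    set a : A := ((al p ((d * k) % p) % d : ℕ) : A)
    linear_combination (d ^ 2 * (5 * a ^ 4 * y ^ 6 - 4 * p * a ^ 5 * y ^ 7 + 3 * p ^ 2 * a ^ 6 * y ^ 8
      - 2 * p ^ 3 * a ^ 7 * y ^ 9 + p ^ 4 * a ^ 8 * y ^ 10)) * hp5

lemma R2' [hp : Fact p.Prime] (hp7 : 7 ≤ p) (hp5 : (p : A) ^ 5 = 0)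
    (hc : ∀ k, 0 < k → k < p → (k : A) * c k = 1) {d : ℕ} (hd : d = 2 ∨ d = 3 ∨ d = 4 ∨ d = 6) :
    p ^ 2 * (∑ k ∈ Ico 1 p, c k ^ 3) = (d : A) ^ 3 * (p ^ 2 * (∑ k ∈ Ico 1 p, c k ^ 3)
      - 3 * (∑ a ∈ range 12, ((a % d : ℕ) : A) * (p ^ 3 * NN p c 4 a))
      + 6 * (∑ a ∈ range 12, ((a % d : ℕ) : A) ^ 2 * (p ^ 4 * NN p c 5 a))) := by
  have h := sum_scale (A := A) (p := p) (d := d) (by omega) (by omega) (fun k => p ^ 2 * c k ^ 3)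
    (fun j => (d : A) ^ 3 * (p ^ 2 * c j ^ 3 - 3 * (((al p j % d : ℕ) : A) * p ^ 3 * c j ^ 4)
      + 6 * (((al p j % d : ℕ) : A) ^ 2 * p ^ 4 * c j ^ 5))) ?_
  · refine (mul_sum _ _ _).trans (h.trans ?_)
    rw [← mul_sum]
    congr 1
    have e4 := class_sum p c 4 (fun a => ((a % d : ℕ) : A) * p ^ 3)
    have e5 := class_sum p c 5 (fun a => ((a % d : ℕ) : A) ^ 2 * p ^ 4)
    rw [sum_add_distrib, sum_sub_distrib, ← mul_sum, ← mul_sum, ← mul_sum,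
      e4, e5]
    simp only [mul_assoc]
  · intro k h0 h1
    have h2 := scale5 hp.out hp7 hp5 hc hd h0 h1
    rw [h2]
    set y := c ((d * k) % p)
    set a : A := ((al p ((d * k) % p) % d : ℕ) : A)
    have e : ∃ r : A, (y - p * a * y ^ 2 + p ^ 2 * a ^ 2 * y ^ 3 - p ^ 3 * a ^ 3 * y ^ 4 + p ^ 4 * a ^ 4 * y ^ 5) ^ 3
        = y ^ 3 - 3 * p * a * y ^ 4 + 6 * p ^ 2 * a ^ 2 * y ^ 5 + p ^ 3 * r := by
      refine ⟨-(10 * (a ^ 3 * y ^ 6)) + 15 * p * (a ^ 4 * y ^ 7) - 18 * p ^ 2 * (a ^ 5 * y ^ 8)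
        + 19 * p ^ 3 * (a ^ 6 * y ^ 9) - 18 * p ^ 4 * (a ^ 7 * y ^ 10) + 15 * p ^ 5 * (a ^ 8 * y ^ 11)
        - 10 * p ^ 6 * (a ^ 9 * y ^ 12) + 6 * p ^ 7 * (a ^ 10 * y ^ 13) - 3 * p ^ 8 * (a ^ 11 * y ^ 14)
        + p ^ 9 * (a ^ 12 * y ^ 15), ?_⟩
      ring
    obtain ⟨r, hr⟩ := e
    rw [mul_pow, hr]
    linear_combination (d ^ 3 * r) * hp5

lemma R3 [hp : Fact p.Prime] (hp7 : 7 ≤ p) (hp5 : (p : A) ^ 5 = 0)
    (hc : ∀ k, 0 < k → k < p → (k : A) * c k = 1) {d : ℕ} (hd : d = 2 ∨ d = 3 ∨ d = 4 ∨ d = 6) :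
    p ^ 3 * (∑ k ∈ Ico 1 p, c k ^ 4) = (d : A) ^ 4 * (p ^ 3 * (∑ k ∈ Ico 1 p, c k ^ 4)
      - 4 * (∑ a ∈ range 12, ((a % d : ℕ) : A) * (p ^ 4 * NN p c 5 a))) := by
  have h := sum_scale (A := A) (p := p) (d := d) (by omega) (by omega) (fun k => p ^ 3 * c k ^ 4)
    (fun j => (d : A) ^ 4 * (p ^ 3 * c j ^ 4 - 4 * (((al p j % d : ℕ) : A) * p ^ 4 * c j ^ 5))) ?_
  · refine (mul_sum _ _ _).trans (h.trans ?_)
    rw [← mul_sum]
    congr 1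
    have e5 := class_sum p c 5 (fun a => ((a % d : ℕ) : A) * p ^ 4)
    rw [sum_sub_distrib, ← mul_sum, ← mul_sum,
      e5]
    simp only [mul_assoc]
  · intro k h0 h1
    have h2 := scale5 hp.out hp7 hp5 hc hd h0 h1
    rw [h2]
    set y := c ((d * k) % p)
    set a : A := ((al p ((d * k) % p) % d : ℕ) : A)
    have e : ∃ r : A, (y - p * a * y ^ 2 + p ^ 2 * a ^ 2 * y ^ 3 - p ^ 3 * a ^ 3 * y ^ 4 + p ^ 4 * a ^ 4 * y ^ 5) ^ 4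
        = y ^ 4 - 4 * p * a * y ^ 5 + p ^ 2 * r := by
      set u : A := - a * y ^ 2 + p * a ^ 2 * y ^ 3 - p ^ 2 * a ^ 3 * y ^ 4 + p ^ 3 * a ^ 4 * y ^ 5 with hu
      refine ⟨4 * y ^ 3 * (a ^ 2 * y ^ 3 - p * a ^ 3 * y ^ 4 + p ^ 2 * a ^ 4 * y ^ 5)
        + 6 * y ^ 2 * u ^ 2 + 4 * p * y * u ^ 3 + p ^ 2 * u ^ 4, ?_⟩
      have e2 : y - p * a * y ^ 2 + p ^ 2 * a ^ 2 * y ^ 3 - p ^ 3 * a ^ 3 * y ^ 4 + p ^ 4 * a ^ 4 * y ^ 5
        = y + p * u := by rw [hu]; ring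
      have e3 : (4 : A) * y ^ 3 * p * u = -4 * p * a * y ^ 5
        + p ^ 2 * (4 * y ^ 3 * (a ^ 2 * y ^ 3 - p * a ^ 3 * y ^ 4 + p ^ 2 * a ^ 4 * y ^ 5)) := by rw [hu]; ring
      rw [e2]
      linear_combination e3
    obtain ⟨r, hr⟩ := e
    rw [mul_pow, hr]
    linear_combination (d ^ 4 * r) * hp5

end scale

end Pool.Agent.H13.CB
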