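import Pool.Agent.H13.CB.Sums
import Pool.Agent.H13.CB.Exact

/-! Facts in a ring where p^3 = 0. -/

namespace Pool.Agent.H13.CB

open Finset

variable {R : Type*} [CommRing R]

lemma refl_c {p : ℕ} (hp3 : (p : R) ^ 3 = 0) {c : ℕ → R}
    (hc : ∀ k, 0 < k → k < p → (k : R) * c k = 1) {k : ℕ} (h0 : 0 < k) (h1 : k < p) :
    c (p - k) = -(c k + p * c k ^ 2 + p ^ 2 * c k ^ 3) := by
  have h2 := hc k h0 h1
  have h3 := hc (p - k) (by omega) (by omega)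
  rw [Nat.cast_sub h1.le] at h3
  set x := c (p - k)
  set y := c k
  have h4 : x = -y + p * y * x := by
    linear_combination (-x) * h2 + (-y) * h3
  linear_combination (1 + p * y + p ^ 2 * y ^ 2) * h4 + (y ^ 3 * x) * hp3

lemma refl_c2 {p : ℕ} (hp3 : (p : R) ^ 3 = 0) {c : ℕ → R}
    (hc : ∀ k, 0 < k → k < p → (k : R) * c k = 1) {k : ℕ} (h0 : 0 < k) (h1 : k < p) :
    (p : R) ^ 2 * c (p - k) = - ((p : R) ^ 2 * c k) := by
  rw [refl_c hp3 hc h0 h1]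
  linear_combination (-(c k ^ 2) - p * c k ^ 3) * hp3

lemma refl_c2_pow {p : ℕ} (hp3 : (p : R) ^ 3 = 0) {c : ℕ → R}
    (hc : ∀ k, 0 < k → k < p → (k : R) * c k = 1) {k : ℕ} (h0 : 0 < k) (h1 : k < p) (s : ℕ) :
    (p : R) ^ 2 * c (p - k) ^ s = (-1) ^ s * ((p : R) ^ 2 * c k ^ s) := by
  induction s with
  | zero => simp
  | succ s ih =>
    have := refl_c2 hp3 hc h0 h1
    calc (p : R) ^ 2 * c (p - k) ^ (s + 1) = ((p : R) ^ 2 * c (p - k) ^ s) * c (p - k) := by ring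
      _ = (-1) ^ s * c k ^ s * ((p : R) ^ 2 * c (p - k)) := by rw [ih]; ring
      _ = _ := by rw [this]; ring

/-- inverse of two -/
lemma two_mul_c2 {p : ℕ} (hp7 : 7 ≤ p) {c : ℕ → R}
    (hc : ∀ k, 0 < k → k < p → (k : R) * c k = 1) : (2 : R) * c 2 = 1 := by
  have := hc 2 (by omega) (by omega)
  simpa using this

lemma sum_odd {p : ℕ} (hp7 : 7 ≤ p) (hp3 : (p : R) ^ 3 = 0) {c : ℕ → R}
    (hc : ∀ k, 0 < k → k < p → (k : R) * c k = 1) (s : ℕ) (hs : Odd s) :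
    (p : R) ^ 2 * ∑ k ∈ Ico 1 p, c k ^ s = 0 := by
  have h1 : (p : R) ^ 2 * ∑ k ∈ Ico 1 p, c k ^ s = - ((p : R) ^ 2 * ∑ k ∈ Ico 1 p, c k ^ s) := by
    conv_lhs => rw [← refl_sum p (fun k => c k ^ s)]
    rw [mul_sum, mul_sum, ← sum_neg_distrib]
    refine sum_congr rfl ?_
    intro i hi
    rw [mem_Ico] at hi
    rw [refl_c2_pow hp3 hc (by omega) (by omega), hs.neg_one_pow]
    ring
  have h2 := two_mul_c2 hp7 hc
  calc (p : R) ^ 2 * ∑ k ∈ Ico 1 p, c k ^ s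
      = (2 * c 2) * ((p : R) ^ 2 * ∑ k ∈ Ico 1 p, c k ^ s) := by rw [h2, one_mul]
    _ = c 2 * ((p : R) ^ 2 * ∑ k ∈ Ico 1 p, c k ^ s + (p : R) ^ 2 * ∑ k ∈ Ico 1 p, c k ^ s) := by ring
    _ = 0 := by
      nth_rewrite 1 [h1]
      ring

lemma part_sum {p : ℕ} (hp3 : (p : R) ^ 3 = 0) {c : ℕ → R}
    (hc : ∀ k, 0 < k → k < p → (k : R) * c k = 1) (s : ℕ)
    (hH : (p : R) ^ 2 * ∑ k ∈ Ico 1 p, c k ^ s = 0) {n : ℕ} (h0 : 0 < n) (h1 : n < p) :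
    (p : R) ^ 2 * ∑ k ∈ Ico 1 (p - n), c k ^ s
      = - ((-1) ^ s * ((p : R) ^ 2 * (∑ k ∈ Ico 1 n, c k ^ s + c n ^ s))) := by
  have e : ∑ k ∈ Ico 1 p, c k ^ s = ∑ k ∈ Ico 1 (p - n), c k ^ s + ∑ k ∈ Ico (p - n) p, c k ^ s :=
    (sum_Ico_consecutive _ (by omega) (by omega)).symm
  have e2 : ∑ k ∈ Ico (p - n) p, c k ^ s = ∑ k ∈ Ico 1 (n + 1), c (p - k) ^ s := by
    refine sum_nbij' (fun i => p - i) (fun i => p - i) ?_ ?_ ?_ ?_ ?_
    · intro i h; simp only [mem_Ico] at h ⊢; omega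
    · intro i h; simp only [mem_Ico] at h ⊢; omega
    · intro i h; simp only [mem_Ico] at h ⊢; omega
    · intro i h; simp only [mem_Ico] at h ⊢; omega
    · intro i h
      simp only [mem_Ico] at h
      rw [show p - (p - i) = i by omega]
  have e3 : (p : R) ^ 2 * ∑ k ∈ Ico 1 (n + 1), c (p - k) ^ s
      = (-1) ^ s * ((p : R) ^ 2 * (∑ k ∈ Ico 1 n, c k ^ s + c n ^ s)) := by
    rw [← sum_Ico_succ_top (by omega), mul_sum, mul_sum, mul_sum]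
    refine sum_congr rfl ?_
    intro i hi
    rw [mem_Ico] at hi
    rw [refl_c2_pow hp3 hc (by omega) (by omega)]
  rw [e, e2, mul_add, e3] at hH
  linear_combination hH

/-- `ε_i = -2 p c_i (1 - 2 p h_{i-1})` -/
lemma eps_formula {p : ℕ} (hp3 : (p : R) ^ 3 = 0) {c : ℕ → R}
    (hc : ∀ k, 0 < k → k < p → (k : R) * c k = 1) {i : ℕ} (h0 : 0 < i) (h1 : i < p) :
    (eps p i : R) = -2 * p * c i + 4 * p ^ 2 * c i * ∑ k ∈ Ico 1 i, c k := by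
  induction i with
  | zero => omega
  | succ i ih =>
    rcases Nat.eq_zero_or_pos i with h | h
    · subst h
      have h2 := hc 1 (by omega) h1
      simp only [Nat.cast_one, one_mul] at h2
      simp [eps, h2]
    · have ih' := ih h (by omega)
      have hci := hc i h (by omega)
      have hci1 := hc (i + 1) (by omega) h1
      push_cast at hci1
      -- (i+1) * eps (i+1) = - (2p - i) eps i
      have hrec : ((i : R) + 1) * (eps p (i + 1) : R) = -(2 * p - i) * (eps p i : R) := by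
        have := Nat.choose_succ_right_eq (2 * p) i
        have h5 : (((2 * p).choose (i + 1) * (i + 1) : ℕ) : R)
          = (((2 * p).choose i * (2 * p - i) : ℕ) : R) := by rw [this]
        rw [Nat.cast_mul, Nat.cast_mul, Nat.cast_sub (show i ≤ 2 * p by omega)] at h5
        push_cast at h5
        unfold eps
        push_cast
        rw [pow_succ]
        linear_combination (-(-1) ^ i) * h5
      have h6 : (eps p (i + 1) : R) = -(2 * p - i) * (eps p i : R) * c (i + 1) := by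
        linear_combination c (i + 1) * hrec - (eps p (i + 1) : R) * hci1
      rw [h6, ih', sum_Ico_succ_top (by omega)]
      set S := ∑ k ∈ Ico 1 i, c k
      set x := c (i + 1)
      set y := c i
      linear_combination (-8 * y * S * x) * hp3 + (-2 * p * x + 4 * p ^ 2 * S * x) * hci

lemma eps_refl {p : ℕ} (hp7 : 7 ≤ p) (hp3 : (p : R) ^ 3 = 0) {c : ℕ → R}
    (hc : ∀ k, 0 < k → k < p → (k : R) * c k = 1) {i : ℕ} (h0 : 0 < i) (h1 : i < p) :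
    (eps p (p - i) : R) = - (eps p i : R) - 2 * p ^ 2 * c i ^ 2 := by
  rw [eps_formula hp3 hc (show 0 < p - i by omega) (by omega), eps_formula hp3 hc h0 h1]
  have hH := sum_odd hp7 hp3 hc 1 odd_one
  have h := part_sum hp3 hc 1 hH h0 h1
  simp only [pow_one] at h
  have h2 := refl_c hp3 hc h0 h1
  have h3 := refl_c2 hp3 hc h0 h1
  set S := ∑ k ∈ Ico 1 i, c k
  set S' := ∑ k ∈ Ico 1 (p - i), c k
  set x := c (p - i)
  set y := c i
  linear_combination (-2 * p) * h2 + 4 * x * h + 4 * (S + y) * h3 + 2 * y ^ 3 * hp3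

/-- p * eps -/
lemma p_eps {p : ℕ} (hp3 : (p : R) ^ 3 = 0) {c : ℕ → R}
    (hc : ∀ k, 0 < k → k < p → (k : R) * c k = 1) {i : ℕ} (h0 : 0 < i) (h1 : i < p) :
    (p : R) * (eps p i : R) = -2 * p ^ 2 * c i := by
  rw [eps_formula hp3 hc h0 h1]
  linear_combination (4 * c i * ∑ k ∈ Ico 1 i, c k) * hp3

/-- partial fractions -/
lemma c_mul_c {p : ℕ} {c : ℕ → R}
    (hc : ∀ k, 0 < k → k < p → (k : R) * c k = 1) {i n : ℕ} (h0 : 0 < i) (h1 : i < n) (h2 : n < p) :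
    c i * c (n - i) = c n * (c i + c (n - i)) := by
  have e1 := hc i h0 (by omega)
  have e2 := hc n (by omega) h2
  have e3 := hc (n - i) (by omega) (by omega)
  rw [Nat.cast_sub h1.le] at e3
  linear_combination (-c i * c (n - i)) * e2 + c n * c (n - i) * e1 + c n * c i * e3

lemma refl_part (n : ℕ) (f : ℕ → R) : ∑ i ∈ Ico 1 n, f (n - i) = ∑ i ∈ Ico 1 n, f i :=
  refl_sum n f

lemma conv23 {p : ℕ} {c : ℕ → R}
    (hc : ∀ k, 0 < k → k < p → (k : R) * c k = 1) {n : ℕ} (h2 : n < p) :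
    conv (fun i => c i ^ 2) (fun j => c j ^ 3) n
      = c n ^ 2 * ∑ k ∈ Ico 1 n, c k ^ 3 + 3 * c n ^ 3 * ∑ k ∈ Ico 1 n, c k ^ 2
        + 6 * c n ^ 4 * ∑ k ∈ Ico 1 n, c k ^ 1 := by
  have e3 := refl_part n (fun k => c k ^ 3)
  have e2 := refl_part n (fun k => c k ^ 2)
  have e1 := refl_part n (fun k => c k ^ 1)
  have h : conv (fun i => c i ^ 2) (fun j => c j ^ 3) n
      = c n ^ 2 * ∑ k ∈ Ico 1 n, c (n - k) ^ 3 + 2 * c n ^ 3 * ∑ k ∈ Ico 1 n, c (n - k) ^ 2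
        + 3 * c n ^ 4 * ∑ k ∈ Ico 1 n, c (n - k) ^ 1
        + c n ^ 3 * ∑ k ∈ Ico 1 n, c k ^ 2 + 3 * c n ^ 4 * ∑ k ∈ Ico 1 n, c k ^ 1 := by
    rw [conv]
    simp only [mul_sum, ← sum_add_distrib]
    refine sum_congr rfl ?_
    intro i hi
    rw [mem_Ico] at hi
    have h := c_mul_c hc (show 0 < i by omega) hi.2 h2
    set x := c i
    set y := c (n - i)
    set z := c n
    linear_combination (x * y ^ 2 + z * x * y + z * y ^ 2 + 2 * z ^ 2 * y + z ^ 2 * x + 3 * z ^ 3) * h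
  rw [h]
  rw [e3, e2, e1]
  ring

lemma conv14 {p : ℕ} {c : ℕ → R}
    (hc : ∀ k, 0 < k → k < p → (k : R) * c k = 1) {n : ℕ} (h2 : n < p) :
    conv (fun i => c i) (fun j => c j ^ 4) n
      = c n * ∑ k ∈ Ico 1 n, c k ^ 4 + c n ^ 2 * ∑ k ∈ Ico 1 n, c k ^ 3
        + c n ^ 3 * ∑ k ∈ Ico 1 n, c k ^ 2
        + 2 * c n ^ 4 * ∑ k ∈ Ico 1 n, c k ^ 1 := by
  have e4 := refl_part n (fun k => c k ^ 4)
  have e3 := refl_part n (fun k => c k ^ 3)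
  have e2 := refl_part n (fun k => c k ^ 2)
  have e1 := refl_part n (fun k => c k ^ 1)
  have h : conv (fun i => c i) (fun j => c j ^ 4) n
      = c n * ∑ k ∈ Ico 1 n, c (n - k) ^ 4 + c n ^ 2 * ∑ k ∈ Ico 1 n, c (n - k) ^ 3
        + c n ^ 3 * ∑ k ∈ Ico 1 n, c (n - k) ^ 2
        + c n ^ 4 * ∑ k ∈ Ico 1 n, c (n - k) ^ 1
        + c n ^ 4 * ∑ k ∈ Ico 1 n, c k ^ 1 := by
    rw [conv]
    simp only [mul_sum, ← sum_add_distrib]
    refine sum_congr rfl ?_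
    intro i hi
    rw [mem_Ico] at hi
    have h := c_mul_c hc (show 0 < i by omega) hi.2 h2
    set x := c i
    set y := c (n - i)
    set z := c n
    linear_combination (y ^ 3 + z * y ^ 2 + z ^ 2 * y + z ^ 3) * h
  rw [h]
  rw [e4, e3, e2, e1]
  ring

lemma conv23_refl {p : ℕ} (hp7 : 7 ≤ p) (hp3 : (p : R) ^ 3 = 0) {c : ℕ → R}
    (hc : ∀ k, 0 < k → k < p → (k : R) * c k = 1)
    (H2 : (p : R) ^ 2 * ∑ k ∈ Ico 1 p, c k ^ 2 = 0) {n : ℕ} (h0 : 0 < n) (h1 : n < p) :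
    (p : R) ^ 2 * conv (fun i => c i ^ 2) (fun j => c j ^ 3) (p - n)
      = (p : R) ^ 2 * (conv (fun i => c i ^ 2) (fun j => c j ^ 3) n + 10 * c n ^ 5) := by
  rw [conv23 hc h1, conv23 hc (show p - n < p by omega)]
  have a3 := part_sum hp3 hc 3 (sum_odd hp7 hp3 hc 3 (by decide)) h0 h1
  have a2 := part_sum hp3 hc 2 H2 h0 h1
  have a1 := part_sum hp3 hc 1 (sum_odd hp7 hp3 hc 1 (by decide)) h0 h1
  have b := refl_c2 hp3 hc h0 h1
  have b2 := refl_c2_pow hp3 hc h0 h1 2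
  have b3 := refl_c2_pow hp3 hc h0 h1 3
  have b4 := refl_c2_pow hp3 hc h0 h1 4
  set x := c (p - n)
  set y := c n
  set S1 := ∑ k ∈ Ico 1 n, c k ^ 1
  set S2 := ∑ k ∈ Ico 1 n, c k ^ 2
  set S3 := ∑ k ∈ Ico 1 n, c k ^ 3
  set T1 := ∑ k ∈ Ico 1 (p - n), c k ^ 1
  set T2 := ∑ k ∈ Ico 1 (p - n), c k ^ 2
  set T3 := ∑ k ∈ Ico 1 (p - n), c k ^ 3
  linear_combination x ^ 2 * a3 + (S3 + y ^ 3) * b2 + 3 * x ^ 3 * a2 - 3 * (S2 + y ^ 2) * b3
    + 6 * x ^ 4 * a1 + 6 * (S1 + y ^ 1) * b4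

lemma conv14_refl {p : ℕ} (hp7 : 7 ≤ p) (hp3 : (p : R) ^ 3 = 0) {c : ℕ → R}
    (hc : ∀ k, 0 < k → k < p → (k : R) * c k = 1)
    (H2 : (p : R) ^ 2 * ∑ k ∈ Ico 1 p, c k ^ 2 = 0)
    (H4 : (p : R) ^ 2 * ∑ k ∈ Ico 1 p, c k ^ 4 = 0) {n : ℕ} (h0 : 0 < n) (h1 : n < p) :
    (p : R) ^ 2 * conv (fun i => c i) (fun j => c j ^ 4) (p - n)
      = (p : R) ^ 2 * (conv (fun i => c i) (fun j => c j ^ 4) n + 5 * c n ^ 5) := by
  rw [conv14 hc h1, conv14 hc (show p - n < p by omega)]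
  have a4 := part_sum hp3 hc 4 H4 h0 h1
  have a3 := part_sum hp3 hc 3 (sum_odd hp7 hp3 hc 3 (by decide)) h0 h1
  have a2 := part_sum hp3 hc 2 H2 h0 h1
  have a1 := part_sum hp3 hc 1 (sum_odd hp7 hp3 hc 1 (by decide)) h0 h1
  have b := refl_c2 hp3 hc h0 h1
  have b2 := refl_c2_pow hp3 hc h0 h1 2
  have b3 := refl_c2_pow hp3 hc h0 h1 3
  have b4 := refl_c2_pow hp3 hc h0 h1 4
  set x := c (p - n)
  set y := c n
  set S1 := ∑ k ∈ Ico 1 n, c k ^ 1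
  set S2 := ∑ k ∈ Ico 1 n, c k ^ 2
  set S3 := ∑ k ∈ Ico 1 n, c k ^ 3
  set S4 := ∑ k ∈ Ico 1 n, c k ^ 4
  set T1 := ∑ k ∈ Ico 1 (p - n), c k ^ 1
  set T2 := ∑ k ∈ Ico 1 (p - n), c k ^ 2
  set T3 := ∑ k ∈ Ico 1 (p - n), c k ^ 3
  set T4 := ∑ k ∈ Ico 1 (p - n), c k ^ 4
  linear_combination x * a4 - (S4 + y ^ 4) * b + x ^ 2 * a3 + (S3 + y ^ 3) * b2
    + x ^ 3 * a2 - (S2 + y ^ 2) * b3 + 2 * x ^ 4 * a1 + 2 * (S1 + y ^ 1) * b4

end Pool.Agent.H13.CB
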