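import Pool.Agent.H13.CB.PartI

/-! Set-up in the p-adic integers. -/

namespace Pool.Agent.H13.CB

open Finset

section
variable (p : ℕ) [hp : Fact p.Prime]

/-- the inclusion of the p-adic integers in the p-adic numbers -/
noncomputable def phi : ℤ_[p] →+* ℚ_[p] := PadicInt.Coe.ringHom

lemma phi_apply (x : ℤ_[p]) : phi p x = (x : ℚ_[p]) := rfl

lemma phi_inj {x y : ℤ_[p]} (h : phi p x = phi p y) : x = y := PadicInt.ext h

/-- the inverse of `k` in the p-adic integers (for `0 < k < p`). -/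
noncomputable def cZ (k : ℕ) : ℤ_[p] := Ring.inverse (k : ℤ_[p])

lemma isUnit_natCast {k : ℕ} (h0 : 0 < k) (h1 : k < p) : IsUnit (k : ℤ_[p]) := by
  rw [PadicInt.isUnit_iff, PadicInt.norm_natCast_eq_one_iff]
  exact (Nat.Prime.coprime_iff_not_dvd hp.out).mpr (fun h => absurd (Nat.le_of_dvd h0 h) (by omega))

lemma natCast_mul_cZ {k : ℕ} (h0 : 0 < k) (h1 : k < p) : (k : ℤ_[p]) * cZ p k = 1 :=
  Ring.mul_inverse_cancel _ (isUnit_natCast p h0 h1)

lemma phi_cZ {k : ℕ} (h0 : 0 < k) (h1 : k < p) : phi p (cZ p k) = 1 / (k : ℚ_[p]) := by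
  have h := congrArg (phi p) (natCast_mul_cZ p h0 h1)
  simp only [map_mul, map_natCast, map_one] at h
  have : (k : ℚ_[p]) ≠ 0 := by
    have : (k : ℚ_[p]) ≠ ((0 : ℕ) : ℚ_[p]) := by
      intro h2
      have := Nat.cast_injective h2
      omega
    simpa using this
  field_simp
  linear_combination h

/-- harmonic numbers of order `s` with `p-1` terms. -/
noncomputable def HZ (s : ℕ) : ℤ_[p] := ∑ k ∈ Ico 1 p, cZ p k ^ s

/-- the summand -/
noncomputable def sZ (k : ℕ) : ℤ_[p] := ((2 * k).choose k : ℤ_[p]) * (∑ l ∈ Ico 1 (k + 1), cZ p l ^ 2) * cZ p k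

lemma phi_HH {k : ℕ} (hk : k < p) :
    phi p (∑ l ∈ Ico 1 (k + 1), cZ p l ^ 2) = ((HH k : ℚ) : ℚ_[p]) := by
  rw [HH, map_sum, Rat.cast_sum, sum_Ico_eq_sum_range]
  refine sum_congr rfl ?_
  intro i hi
  rw [mem_range] at hi
  rw [map_pow, phi_cZ p (by omega) (by omega)]
  push_cast
  rw [add_comm (1 : ℚ_[p])]
  simp

lemma phi_sZ {k : ℕ} (h0 : 0 < k) (hk : k < p) :
    phi p (sZ p k) = ((ss k : ℚ) : ℚ_[p]) := by
  rw [sZ, map_mul, map_mul, phi_HH p hk, phi_cZ p h0 hk, map_natCast, ss]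
  push_cast
  ring

lemma sZ_coeff {n : ℕ} (h0 : 0 < n) (h1 : n < p) :
      ∑ k ∈ Ico 1 (n + 1), (-1) ^ n * (sZ p k * ((2 * p - 2 * k).choose (n - k) : ℤ_[p]))
        = -2 * (cZ p n ^ 3 + conv (fun i => (eps p i : ℤ_[p])) (fun j => cZ p j ^ 3) n) := by
  apply phi_inj
  have h := congrArg (fun x : ℚ => (x : ℚ_[p])) (exact_coeff p n h0 h1.le)
  rw [Rat.cast_sum, Rat.cast_sum] at h
  have hL : phi p (∑ k ∈ Ico 1 (n + 1), (-1) ^ n * (sZ p k * ((2 * p - 2 * k).choose (n - k) : ℤ_[p])))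
      = ∑ i ∈ range n, (((-1) ^ n * (ss (i + 1) * ((2 * p - 2 * (i + 1)).choose (n - (i + 1)) : ℚ)) : ℚ) : ℚ_[p]) := by
    rw [map_sum, sum_Ico_eq_sum_range]
    refine sum_congr rfl ?_
    intro i hi
    rw [mem_range] at hi
    have e : 1 + i = i + 1 := by ring
    rw [e, map_mul, map_mul, phi_sZ p (by omega) (by omega)]
    simp
  rw [hL, h, range_eq_Ico, sum_eq_sum_Ico_succ_bot (by omega)]
  rw [sum_Ico_succ_top (by omega)]
  have hR : phi p (-2 * (cZ p n ^ 3 + conv (fun i => (eps p i : ℤ_[p])) (fun j => cZ p j ^ 3) n))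
     = -2 * (1 / (n : ℚ_[p]) ^ 3) + ∑ k ∈ Ico 1 n, (eps p (n - k) : ℚ_[p]) * (-2 / (k : ℚ_[p]) ^ 3) := by
    rw [map_mul, map_add, map_pow, phi_cZ p h0 h1, conv, map_sum,
      mul_add]
    congr 1
    · simp only [map_neg, map_ofNat, one_div, inv_pow]
    · rw [← refl_sum n (fun k => (eps p (n - k) : ℚ_[p]) * (-2 / (k : ℚ_[p]) ^ 3)), mul_sum]
      refine sum_congr rfl ?_
      intro i hi
      rw [mem_Ico] at hi
      rw [map_mul, map_pow, phi_cZ p (show 0 < n - i by omega) (by omega)]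
      rw [show n - (n - i) = i by omega]
      simp only [map_neg, map_ofNat, map_intCast]
      ring
  rw [hR]
  push_cast
  simp [eps]
  ring

/-- the constant -/
noncomputable def KZ : ℤ_[p] :=
  -(∑ k ∈ Ico 1 p, (-1) ^ p * (sZ p k * ((2 * p - 2 * k).choose (p - k) : ℤ_[p]))
        + 2 * conv (fun i => (eps p i : ℤ_[p])) (fun j => cZ p j ^ 3) p)

lemma KZ_eq (hodd : Odd p) : (p : ℤ_[p]) ^ 3 * KZ p
    = 2 - ((2 * p).choose p : ℤ_[p]) * (1 + p ^ 2 * HZ p 2) := by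
  apply phi_inj
  have hp0 := hp.out.pos
  have hpne : (p : ℚ_[p]) ≠ 0 := by
    have : (p : ℚ_[p]) ≠ ((0 : ℕ) : ℚ_[p]) := by
      intro h2
      have := Nat.cast_injective h2
      omega
    simpa using this
  have h := congrArg (fun x : ℚ => (x : ℚ_[p])) (exact_coeff p p hp0 le_rfl)
  rw [Rat.cast_sum, Rat.cast_sum, range_eq_Ico, range_eq_Ico, sum_eq_sum_Ico_succ_bot (by omega : 0 < p + 1)] at h
  rw [sum_Ico_succ_top (by omega : 0 + 1 ≤ p)] at h
  have hHp : ((HH p : ℚ) : ℚ_[p]) = phi p (HZ p 2) + 1 / (p : ℚ_[p]) ^ 2 := by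
    obtain ⟨q, hq⟩ : ∃ q, p = q + 1 := ⟨p - 1, by omega⟩
    have e1 : HH p = HH (p - 1) + 1 / (p : ℚ) ^ 2 := by
      conv_lhs => rw [hq]
      rw [HH_succ, hq]
      simp
    rw [e1, HZ]
    have e2 := phi_HH p (show p - 1 < p by omega)
    rw [show p - 1 + 1 = p by omega] at e2
    rw [e2]
    push_cast
    rfl
  have hA : phi p (∑ k ∈ Ico 1 p, (-1) ^ p * (sZ p k * ((2 * p - 2 * k).choose (p - k) : ℤ_[p])))
      = ∑ i ∈ Ico 0 p, (((-1) ^ p * (ss (i + 1) * ((2 * p - 2 * (i + 1)).choose (p - (i + 1)) : ℚ)) : ℚ) : ℚ_[p])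
        + ((2 * p).choose p : ℚ_[p]) * ((HH p : ℚ) : ℚ_[p]) / p := by
    have e1 : Ico 0 p = Ico 0 (p - 1 + 1) := by rw [show p - 1 + 1 = p by omega]
    rw [e1, sum_Ico_succ_top (by omega), map_sum, sum_Ico_eq_sum_range, ← range_eq_Ico]
    rw [add_assoc]
    have e3 : (((-1) ^ p * (ss (p - 1 + 1) * ((2 * p - 2 * (p - 1 + 1)).choose (p - (p - 1 + 1)) : ℚ)) : ℚ) : ℚ_[p])
        + ((2 * p).choose p : ℚ_[p]) * ((HH p : ℚ) : ℚ_[p]) / p = 0 := by
      rw [show p - 1 + 1 = p by omega, hodd.neg_one_pow, ss]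
      simp
    rw [e3, add_zero]
    refine sum_congr rfl ?_
    intro i hi
    rw [mem_range] at hi
    rw [show 1 + i = i + 1 by ring, map_mul, map_mul, phi_sZ p (by omega) (by omega)]
    simp
  have hB : phi p (conv (fun i => (eps p i : ℤ_[p])) (fun j => cZ p j ^ 3) p)
     = ∑ k ∈ Ico 1 p, (eps p (p - k) : ℚ_[p]) * (1 / (k : ℚ_[p]) ^ 3) := by
    rw [conv, map_sum, ← refl_sum p (fun k => (eps p (p - k) : ℚ_[p]) * (1 / (k : ℚ_[p]) ^ 3))]
    refine sum_congr rfl ?_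
    intro i hi
    rw [mem_Ico] at hi
    rw [map_mul, map_pow, phi_cZ p (show 0 < p - i by omega) (by omega)]
    rw [show p - (p - i) = i by omega]
    simp only [map_intCast]
    ring
  rw [map_mul, KZ, map_neg, map_add, hA, h, map_mul, hB, hHp]
  simp only [map_sub, map_pow, map_natCast, map_mul, map_add, map_one, map_ofNat]
  have hC : ∑ k ∈ Ico (0 + 1) p, (((eps p (p - k) : ℚ) * (-2 / (k : ℚ) ^ 3) : ℚ) : ℚ_[p])
      = -2 * ∑ k ∈ Ico 1 p, (eps p (p - k) : ℚ_[p]) * (1 / (k : ℚ_[p]) ^ 3) := by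
    rw [mul_sum, zero_add]
    refine sum_congr rfl ?_
    intro i _
    push_cast
    ring
  rw [hC]
  push_cast
  simp [eps]
  field_simp
  ring

end

end Pool.Agent.H13.CB
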