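import Mathlib

/-! Finite sum manipulations used for the central binomial congruences. -/

namespace Pool.Agent.H13.CB

open Finset

variable {R : Type*} [CommRing R]

/-- truncated convolution -/
def conv (a b : ℕ → R) (n : ℕ) : R := ∑ i ∈ Ico 1 n, a i * b (n - i)

lemma tri (p : ℕ) (f : ℕ → ℕ → R) :
    ∑ i ∈ Ico 1 p, ∑ j ∈ Ico 1 (p - i), f i j = ∑ n ∈ Ico 1 p, ∑ i ∈ Ico 1 n, f i (n - i) := by
  rw [sum_sigma', sum_sigma']
  refine sum_nbij' (fun x => ⟨x.1 + x.2, x.1⟩) (fun x => ⟨x.2, x.1 - x.2⟩) ?_ ?_ ?_ ?_ ?_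
  · rintro ⟨i, j⟩ h
    simp only [mem_sigma, mem_Ico] at h ⊢
    omega
  · rintro ⟨i, j⟩ h
    simp only [mem_sigma, mem_Ico] at h ⊢
    omega
  · rintro ⟨i, j⟩ h
    simp
  · rintro ⟨i, j⟩ h
    simp only [mem_sigma, mem_Ico] at h ⊢
    simp only [Sigma.mk.injEq, heq_eq_eq, and_true]
    omega
  · rintro ⟨i, j⟩ h
    simp

lemma refl_sum (p : ℕ) (f : ℕ → R) : ∑ i ∈ Ico 1 p, f (p - i) = ∑ i ∈ Ico 1 p, f i := by
  refine sum_nbij' (fun i => p - i) (fun i => p - i) ?_ ?_ ?_ ?_ ?_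
  · intro i h; simp only [mem_Ico] at h ⊢; omega
  · intro i h; simp only [mem_Ico] at h ⊢; omega
  · intro i h; simp only [mem_Ico] at h ⊢; omega
  · intro i h; simp only [mem_Ico] at h ⊢; omega
  · intro i h; rfl

lemma refl_sum' (p : ℕ) (f g : ℕ → R) (h : ∀ i, 0 < i → i < p → f i = g (p - i)) :
    ∑ i ∈ Ico 1 p, f i = ∑ i ∈ Ico 1 p, g i := by
  rw [← refl_sum p g]
  refine sum_congr rfl ?_
  intro i hi
  rw [mem_Ico] at hi
  exact h i (by omega) (by omega)

lemma split (p : ℕ) (a b : ℕ → R) (t : R) :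
    (∑ i ∈ Ico 1 p, a i * t ^ i) * (∑ j ∈ Ico 1 p, b j * t ^ j)
      = ∑ n ∈ Ico 1 p, conv a b n * t ^ n + conv a b p * t ^ p
        + ∑ n ∈ Ico 1 p, conv (fun i => a (p - i)) (fun j => b (p - j)) n * t ^ (2 * p - n) := by
  have h1 : ∑ n ∈ Ico 1 p, conv a b n * t ^ n
      = ∑ i ∈ Ico 1 p, ∑ j ∈ Ico 1 (p - i), a i * t ^ i * (b j * t ^ j) := by
    rw [tri]
    refine sum_congr rfl ?_
    intro n hn
    rw [conv, sum_mul]
    refine sum_congr rfl ?_
    intro i hi
    rw [mem_Ico] at hi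
    have : t ^ n = t ^ i * t ^ (n - i) := by rw [← pow_add]; congr 1; omega
    rw [this]; ring
  have h2 : conv a b p * t ^ p = ∑ i ∈ Ico 1 p, a i * t ^ i * (b (p - i) * t ^ (p - i)) := by
    rw [conv, sum_mul]
    refine sum_congr rfl ?_
    intro i hi
    rw [mem_Ico] at hi
    have : t ^ p = t ^ i * t ^ (p - i) := by rw [← pow_add]; congr 1; omega
    rw [this]; ring
  have h3 : ∑ n ∈ Ico 1 p, conv (fun i => a (p - i)) (fun j => b (p - j)) n * t ^ (2 * p - n)
      = ∑ i ∈ Ico 1 p, ∑ j ∈ Ico (p - i + 1) p, a i * t ^ i * (b j * t ^ j) := by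
    rw [← refl_sum p (fun i => ∑ j ∈ Ico (p - i + 1) p, a i * t ^ i * (b j * t ^ j))]
    have h4 : ∀ i ∈ Ico 1 p, ∑ j ∈ Ico (p - (p - i) + 1) p, a (p - i) * t ^ (p - i) * (b j * t ^ j)
        = ∑ j ∈ Ico 1 (p - i), a (p - i) * t ^ (p - i) * (b (p - j) * t ^ (p - j)) := by
      intro i hi
      rw [mem_Ico] at hi
      refine sum_nbij' (fun j => p - j) (fun j => p - j) ?_ ?_ ?_ ?_ ?_
      · intro j h; simp only [mem_Ico] at h ⊢; omega
      · intro j h; simp only [mem_Ico] at h ⊢; omega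
      · intro j h; simp only [mem_Ico] at h ⊢; omega
      · intro j h; simp only [mem_Ico] at h ⊢; omega
      · intro j h
        simp only [mem_Ico] at h
        rw [show p - (p - j) = j by omega]
    rw [sum_congr rfl h4, tri p (fun i j => a (p - i) * t ^ (p - i) * (b (p - j) * t ^ (p - j)))]
    refine sum_congr rfl ?_
    intro n hn
    rw [mem_Ico] at hn
    rw [conv, sum_mul]
    refine sum_congr rfl ?_
    intro i hi
    rw [mem_Ico] at hi
    have : t ^ (2 * p - n) = t ^ (p - i) * t ^ (p - (n - i)) := by rw [← pow_add]; congr 1; omega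
    rw [this]; ring
  rw [h1, h2, h3, sum_mul_sum, ← sum_add_distrib, ← sum_add_distrib]
  refine sum_congr rfl ?_
  intro i hi
  rw [mem_Ico] at hi
  have e : Ico 1 p = (Ico 1 (p - i) ∪ {p - i}) ∪ Ico (p - i + 1) p := by
    ext j; simp only [mem_union, mem_Ico, mem_singleton]; omega
  rw [e, sum_union, sum_union, sum_singleton]
  · rw [disjoint_singleton_right, mem_Ico]; omega
  · rw [disjoint_left]; intro j; simp only [mem_union, mem_Ico, mem_singleton]; omega

lemma expand_sq (M : ℕ) (t : R) :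
    (1 - t) ^ (2 * M) = ∑ i ∈ range M, (-1) ^ i * ((2 * M).choose i : R) * (t ^ i + t ^ (2 * M - i))
      + (-1) ^ M * ((2 * M).choose M : R) * t ^ M := by
  have h : (1 - t) ^ (2 * M) = ∑ i ∈ range (2 * M + 1), (-1) ^ i * ((2 * M).choose i : R) * t ^ i := by
    rw [sub_eq_neg_add, add_pow]
    refine sum_congr rfl ?_
    intro i _
    rw [one_pow, neg_pow]; ring
  rw [h, show 2 * M + 1 = M + (M + 1) by ring, sum_range_add, sum_range_succ' _ M]
  rw [add_zero, show 2 * M = M + M by ring]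
  have h2 : ∑ i ∈ range M, (-1) ^ (M + (i + 1)) * ((M + M).choose (M + (i + 1)) : R) * t ^ (M + (i + 1))
      = ∑ i ∈ range M, (-1) ^ i * ((M + M).choose i : R) * t ^ (M + M - i) := by
    rw [← sum_range_reflect]
    refine sum_congr rfl ?_
    intro i hi
    rw [mem_range] at hi
    have e1 : M + (M - 1 - i + 1) = M + M - i := by omega
    rw [e1, Nat.choose_symm (by omega)]
    have e2 : (-1 : R) ^ (M + M - i) = (-1) ^ i := by
      have h5 : (-1 : R) ^ (M + M - i) * (-1) ^ i = 1 := by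
        rw [← pow_add, show M + M - i + i = 2 * M by omega, pow_mul]; simp
      have h6 : (-1 : R) ^ i * (-1) ^ i = 1 := by
        rw [← pow_add, ← two_mul, pow_mul]; simp
      calc (-1 : R) ^ (M + M - i) = (-1 : R) ^ (M + M - i) * ((-1 : R) ^ i * (-1) ^ i) := by rw [h6, mul_one]
        _ = ((-1 : R) ^ (M + M - i) * (-1) ^ i) * (-1) ^ i := by ring
        _ = (-1) ^ i := by rw [h5, one_mul]
    rw [e2]
  rw [h2, ← add_assoc, ← sum_add_distrib]
  congr 1
  refine sum_congr rfl ?_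
  intro i _
  ring

end Pool.Agent.H13.CB
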