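import Pool.Agent.H13.CB.Rel

/-! Evaluation of the class sums for the four root of unity patterns. -/

namespace Pool.Agent.H13.CB

open Finset

/-- traces of powers of roots of unity of order 2, 3, 4, 6 -/
def U4 (a : ℕ) : ℤ := if a % 2 = 1 then 2 else -2
def U3 (a : ℕ) : ℤ := if a % 3 = 2 then 2 else -1
def U2 (a : ℕ) : ℤ := if a % 4 = 3 then 2 else if a % 4 = 1 then -2 else 0
def U1 (a : ℕ) : ℤ := if a % 6 = 5 then 2 else if a % 6 = 0 then 1 else if a % 6 = 4 then 1 else if a % 6 = 2 then -2 else -1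

variable {A : Type*} [CommRing A] {p : ℕ} {c : ℕ → A}


lemma val4 [hp : Fact p.Prime] (hp7 : 7 ≤ p) (hp5 : (p : A) ^ 5 = 0)
    (hc : ∀ k, 0 < k → k < p → (k : A) * c k = 1) :
    (4 : A) * (2 * 4 * (p ^ 2 * ∑ j ∈ Ico 1 p, (U4 (al p j) : A) * c j ^ 3)
      - 20 * (p ^ 4 * ∑ j ∈ Ico 1 p, (U4 (al p j) : A) * c j ^ 5)
      + 4 * (p ^ 3 * ∑ j ∈ Ico 1 p, c j ^ 4))
      = (-96) * (∑ j ∈ Ico 1 p, c j) + (7) * (p ^ 3 * ∑ j ∈ Ico 1 p, c j ^ 4) := by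
  have E1 := E1 hp.out hp7 hp5 hc
  have E2 := E2 hp.out hp7 hp5 hc
  have R13_0 := R13 hp.out hp7 hp5 hc 0 (by norm_num)
  have R13_1 := R13 hp.out hp7 hp5 hc 1 (by norm_num)
  have R13_2 := R13 hp.out hp7 hp5 hc 2 (by norm_num)
  have R13_3 := R13 hp.out hp7 hp5 hc 3 (by norm_num)
  have R13_4 := R13 hp.out hp7 hp5 hc 4 (by norm_num)
  have R13_5 := R13 hp.out hp7 hp5 hc 5 (by norm_num)
  have R14_0 := R14 hp.out hp7 hp5 hc 0 (by norm_num)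
  have R14_2 := R14 hp.out hp7 hp5 hc 2 (by norm_num)
  have R14_4 := R14 hp.out hp7 hp5 hc 4 (by norm_num)
  have R15_0 := R15 hp.out hp7 hp5 hc 0 (by norm_num)
  have R15_1 := R15 hp.out hp7 hp5 hc 1 (by norm_num)
  have R15_2 := R15 hp.out hp7 hp5 hc 2 (by norm_num)
  have R15_3 := R15 hp.out hp7 hp5 hc 3 (by norm_num)
  have R15_4 := R15 hp.out hp7 hp5 hc 4 (by norm_num)
  have R15_5 := R15 hp.out hp7 hp5 hc 5 (by norm_num)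
  have R2_2 := R2 hp7 hp5 hc (d := 2) (by norm_num)
  have R2p_2 := R2' hp7 hp5 hc (d := 2) (by norm_num)
  have R3_2 := R3 hp7 hp5 hc (d := 2) (by norm_num)
  have S3 := class_total p c 3
  have S4 := class_total p c 4
  have u3 := class_sum p c 3 (fun a => (U4 a : A))
  have u5 := class_sum p c 5 (fun a => (U4 a : A))
  generalize (∑ j ∈ Ico 1 p, (U4 (al p j) : A) * c j ^ 3) = σ3 at u3 ⊢
  generalize (∑ j ∈ Ico 1 p, (U4 (al p j) : A) * c j ^ 5) = σ5 at u5 ⊢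
  simp only [sum_range_succ, sum_range_zero, U4] at R13_0 R13_1 R13_2 R13_3 R13_4 R13_5 R14_0 R14_2 R14_4 R15_0 R15_1 R15_2 R15_3 R15_4 R15_5 R2_2 R2p_2 R3_2 u3 u5 S3 S4
  norm_num at R13_0 R13_1 R13_2 R13_3 R13_4 R13_5 R14_0 R14_2 R14_4 R15_0 R15_1 R15_2 R15_3 R15_4 R15_5 R2_2 R2p_2 R3_2 u3 u5 S3 S4
  linear_combination (32 * p ^ 2) * u3 - (80 * p ^ 4) * u5 + (48) * E1 + (32) * E2 + (-64) * R13_0 + (-192) * R14_0 + (-224) * R15_0 + (-64) * R13_1 + (160) * R15_1 + (-64) * R13_2 + (-192) * R14_2 + (-224) * R15_2 + (-64) * R13_3 + (160) * R15_3 + (-64) * R13_4 + (-192) * R14_4 + (-224) * R15_4 + (-64) * R13_5 + (160) * R15_5 + (16) * R2_2 + (16) * R2p_2 + (9) * R3_2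


lemma val3 [hp : Fact p.Prime] (hp7 : 7 ≤ p) (hp5 : (p : A) ^ 5 = 0)
    (hc : ∀ k, 0 < k → k < p → (k : A) * c k = 1) :
    (324 : A) * (2 * 3 * (p ^ 2 * ∑ j ∈ Ico 1 p, (U3 (al p j) : A) * c j ^ 3)
      - 20 * (p ^ 4 * ∑ j ∈ Ico 1 p, (U3 (al p j) : A) * c j ^ 5)
      + 3 * (p ^ 3 * ∑ j ∈ Ico 1 p, c j ^ 4))
      = (-2592) * (∑ j ∈ Ico 1 p, c j) + (804) * (p ^ 3 * ∑ j ∈ Ico 1 p, c j ^ 4) := by
  have E1 := E1 hp.out hp7 hp5 hc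
  have E2 := E2 hp.out hp7 hp5 hc
  have R13_0 := R13 hp.out hp7 hp5 hc 0 (by norm_num)
  have R13_1 := R13 hp.out hp7 hp5 hc 1 (by norm_num)
  have R13_2 := R13 hp.out hp7 hp5 hc 2 (by norm_num)
  have R13_3 := R13 hp.out hp7 hp5 hc 3 (by norm_num)
  have R13_4 := R13 hp.out hp7 hp5 hc 4 (by norm_num)
  have R13_5 := R13 hp.out hp7 hp5 hc 5 (by norm_num)
  have R14_0 := R14 hp.out hp7 hp5 hc 0 (by norm_num)
  have R14_1 := R14 hp.out hp7 hp5 hc 1 (by norm_num)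
  have R14_2 := R14 hp.out hp7 hp5 hc 2 (by norm_num)
  have R14_3 := R14 hp.out hp7 hp5 hc 3 (by norm_num)
  have R14_4 := R14 hp.out hp7 hp5 hc 4 (by norm_num)
  have R15_0 := R15 hp.out hp7 hp5 hc 0 (by norm_num)
  have R15_1 := R15 hp.out hp7 hp5 hc 1 (by norm_num)
  have R15_2 := R15 hp.out hp7 hp5 hc 2 (by norm_num)
  have R15_3 := R15 hp.out hp7 hp5 hc 3 (by norm_num)
  have R15_4 := R15 hp.out hp7 hp5 hc 4 (by norm_num)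
  have R15_5 := R15 hp.out hp7 hp5 hc 5 (by norm_num)
  have R2_3 := R2 hp7 hp5 hc (d := 3) (by norm_num)
  have R2p_2 := R2' hp7 hp5 hc (d := 2) (by norm_num)
  have R2p_3 := R2' hp7 hp5 hc (d := 3) (by norm_num)
  have R3_2 := R3 hp7 hp5 hc (d := 2) (by norm_num)
  have S3 := class_total p c 3
  have S4 := class_total p c 4
  have u3 := class_sum p c 3 (fun a => (U3 a : A))
  have u5 := class_sum p c 5 (fun a => (U3 a : A))
  generalize (∑ j ∈ Ico 1 p, (U3 (al p j) : A) * c j ^ 3) = σ3 at u3 ⊢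
  generalize (∑ j ∈ Ico 1 p, (U3 (al p j) : A) * c j ^ 5) = σ5 at u5 ⊢
  simp only [sum_range_succ, sum_range_zero, U3] at R13_0 R13_1 R13_2 R13_3 R13_4 R13_5 R14_0 R14_1 R14_2 R14_3 R14_4 R15_0 R15_1 R15_2 R15_3 R15_4 R15_5 R2_3 R2p_2 R2p_3 R3_2 u3 u5 S3 S4
  norm_num at R13_0 R13_1 R13_2 R13_3 R13_4 R13_5 R14_0 R14_1 R14_2 R14_3 R14_4 R15_0 R15_1 R15_2 R15_3 R15_4 R15_5 R2_3 R2p_2 R2p_3 R3_2 u3 u5 S3 S4
  linear_combination (1944 * p ^ 2) * u3 - (6480 * p ^ 4) * u5 + (1296) * E1 + (1649) * E2 + (-1944) * R13_0 + (-5832) * R14_0 + (-5184) * R15_0 + (-4860) * R13_1 + (-4050) * R14_1 + (17496) * R15_1 + (-1944) * R13_2 + (-6480) * R14_2 + (-6480) * R15_2 + (-1944) * R13_3 + (648) * R14_3 + (7776) * R15_3 + (-4860) * R13_4 + (-10530) * R14_4 + (4536) * R15_4 + (-1944) * R13_5 + (6480) * R15_5 + (270) * R2p_2 + (405) * R3_2 + (162) * R2_3 + (104) * R2p_3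


lemma val2 [hp : Fact p.Prime] (hp7 : 7 ≤ p) (hp5 : (p : A) ^ 5 = 0)
    (hc : ∀ k, 0 < k → k < p → (k : A) * c k = 1) :
    (768 : A) * (2 * 2 * (p ^ 2 * ∑ j ∈ Ico 1 p, (U2 (al p j) : A) * c j ^ 3)
      - 20 * (p ^ 4 * ∑ j ∈ Ico 1 p, (U2 (al p j) : A) * c j ^ 5)
      + 2 * (p ^ 3 * ∑ j ∈ Ico 1 p, c j ^ 4))
      = (-576) * (∑ j ∈ Ico 1 p, c j) + (1437) * (p ^ 3 * ∑ j ∈ Ico 1 p, c j ^ 4) := by
  have E1 := E1 hp.out hp7 hp5 hc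
  have E2 := E2 hp.out hp7 hp5 hc
  have R13_1 := R13 hp.out hp7 hp5 hc 1 (by norm_num)
  have R13_2 := R13 hp.out hp7 hp5 hc 2 (by norm_num)
  have R13_5 := R13 hp.out hp7 hp5 hc 5 (by norm_num)
  have R14_1 := R14 hp.out hp7 hp5 hc 1 (by norm_num)
  have R14_2 := R14 hp.out hp7 hp5 hc 2 (by norm_num)
  have R14_5 := R14 hp.out hp7 hp5 hc 5 (by norm_num)
  have R15_1 := R15 hp.out hp7 hp5 hc 1 (by norm_num)
  have R15_2 := R15 hp.out hp7 hp5 hc 2 (by norm_num)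
  have R15_5 := R15 hp.out hp7 hp5 hc 5 (by norm_num)
  have R2_2 := R2 hp7 hp5 hc (d := 2) (by norm_num)
  have R2_4 := R2 hp7 hp5 hc (d := 4) (by norm_num)
  have R2p_2 := R2' hp7 hp5 hc (d := 2) (by norm_num)
  have R2p_4 := R2' hp7 hp5 hc (d := 4) (by norm_num)
  have R3_2 := R3 hp7 hp5 hc (d := 2) (by norm_num)
  have S3 := class_total p c 3
  have S4 := class_total p c 4
  have u3 := class_sum p c 3 (fun a => (U2 a : A))
  have u5 := class_sum p c 5 (fun a => (U2 a : A))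
  generalize (∑ j ∈ Ico 1 p, (U2 (al p j) : A) * c j ^ 3) = σ3 at u3 ⊢
  generalize (∑ j ∈ Ico 1 p, (U2 (al p j) : A) * c j ^ 5) = σ5 at u5 ⊢
  simp only [sum_range_succ, sum_range_zero, U2] at R13_1 R13_2 R13_5 R14_1 R14_2 R14_5 R15_1 R15_2 R15_5 R2_2 R2_4 R2p_2 R2p_4 R3_2 u3 u5 S3 S4
  norm_num at R13_1 R13_2 R13_5 R14_1 R14_2 R14_5 R15_1 R15_2 R15_5 R2_2 R2_4 R2p_2 R2p_4 R3_2 u3 u5 S3 S4
  linear_combination (3072 * p ^ 2) * u3 - (15360 * p ^ 4) * u5 + (288) * E1 + (1977) * E2 + (-6144) * R13_1 + (-5376) * R14_1 + (46080) * R15_1 + (-6144) * R13_2 + (-13056) * R14_2 + (30720) * R15_2 + (-6144) * R13_5 + (-5376) * R14_5 + (46080) * R15_5 + (-384) * R2_2 + (48) * R2p_2 + (408) * R3_2 + (96) * R2_4 + (62) * R2p_4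


lemma val1 [hp : Fact p.Prime] (hp7 : 7 ≤ p) (hp5 : (p : A) ^ 5 = 0)
    (hc : ∀ k, 0 < k → k < p → (k : A) * c k = 1) :
    (3888 : A) * (2 * 1 * (p ^ 2 * ∑ j ∈ Ico 1 p, (U1 (al p j) : A) * c j ^ 3)
      - 20 * (p ^ 4 * ∑ j ∈ Ico 1 p, (U1 (al p j) : A) * c j ^ 5)
      + 1 * (p ^ 3 * ∑ j ∈ Ico 1 p, c j ^ 4))
      = (2592) * (∑ j ∈ Ico 1 p, c j) + (2736) * (p ^ 3 * ∑ j ∈ Ico 1 p, c j ^ 4) := by
  have E1 := E1 hp.out hp7 hp5 hc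
  have E2 := E2 hp.out hp7 hp5 hc
  have R13_0 := R13 hp.out hp7 hp5 hc 0 (by norm_num)
  have R13_1 := R13 hp.out hp7 hp5 hc 1 (by norm_num)
  have R13_2 := R13 hp.out hp7 hp5 hc 2 (by norm_num)
  have R13_3 := R13 hp.out hp7 hp5 hc 3 (by norm_num)
  have R13_4 := R13 hp.out hp7 hp5 hc 4 (by norm_num)
  have R13_5 := R13 hp.out hp7 hp5 hc 5 (by norm_num)
  have R14_0 := R14 hp.out hp7 hp5 hc 0 (by norm_num)
  have R14_1 := R14 hp.out hp7 hp5 hc 1 (by norm_num)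
  have R14_2 := R14 hp.out hp7 hp5 hc 2 (by norm_num)
  have R14_3 := R14 hp.out hp7 hp5 hc 3 (by norm_num)
  have R14_4 := R14 hp.out hp7 hp5 hc 4 (by norm_num)
  have R15_0 := R15 hp.out hp7 hp5 hc 0 (by norm_num)
  have R15_1 := R15 hp.out hp7 hp5 hc 1 (by norm_num)
  have R15_2 := R15 hp.out hp7 hp5 hc 2 (by norm_num)
  have R15_3 := R15 hp.out hp7 hp5 hc 3 (by norm_num)
  have R15_4 := R15 hp.out hp7 hp5 hc 4 (by norm_num)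
  have R15_5 := R15 hp.out hp7 hp5 hc 5 (by norm_num)
  have R2_2 := R2 hp7 hp5 hc (d := 2) (by norm_num)
  have R2_3 := R2 hp7 hp5 hc (d := 3) (by norm_num)
  have R2_6 := R2 hp7 hp5 hc (d := 6) (by norm_num)
  have R2p_2 := R2' hp7 hp5 hc (d := 2) (by norm_num)
  have R2p_3 := R2' hp7 hp5 hc (d := 3) (by norm_num)
  have R2p_6 := R2' hp7 hp5 hc (d := 6) (by norm_num)
  have R3_2 := R3 hp7 hp5 hc (d := 2) (by norm_num)
  have S3 := class_total p c 3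
  have S4 := class_total p c 4
  have u3 := class_sum p c 3 (fun a => (U1 a : A))
  have u5 := class_sum p c 5 (fun a => (U1 a : A))
  generalize (∑ j ∈ Ico 1 p, (U1 (al p j) : A) * c j ^ 3) = σ3 at u3 ⊢
  generalize (∑ j ∈ Ico 1 p, (U1 (al p j) : A) * c j ^ 5) = σ5 at u5 ⊢
  simp only [sum_range_succ, sum_range_zero, U1] at R13_0 R13_1 R13_2 R13_3 R13_4 R13_5 R14_0 R14_1 R14_2 R14_3 R14_4 R15_0 R15_1 R15_2 R15_3 R15_4 R15_5 R2_2 R2_3 R2_6 R2p_2 R2p_3 R2p_6 R3_2 u3 u5 S3 S4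
  norm_num at R13_0 R13_1 R13_2 R13_3 R13_4 R13_5 R14_0 R14_1 R14_2 R14_3 R14_4 R15_0 R15_1 R15_2 R15_3 R15_4 R15_5 R2_2 R2_3 R2_6 R2p_2 R2p_3 R2p_6 R3_2 u3 u5 S3 S4
  linear_combination (7776 * p ^ 2) * u3 - (77760 * p ^ 4) * u5 + (-1296) * E1 + (2841) * E2 + (7776) * R13_0 + (23328) * R14_0 + (-31104) * R15_0 + (-3888) * R13_1 + (7128) * R14_1 + (137376) * R15_1 + (-15552) * R13_2 + (-22032) * R14_2 + (259200) * R15_2 + (-15552) * R13_3 + (-24624) * R14_3 + (254016) * R15_3 + (-3888) * R13_4 + (-18792) * R14_4 + (85536) * R15_4 + (7776) * R13_5 + (-77760) * R15_5 + (-486) * R2_2 + (27) * R2p_2 + (405) * R3_2 + (-216) * R2_3 + (-128) * R2p_3 + (54) * R2_6 + (35) * R2p_6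

end Pool.Agent.H13.CB
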